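import Mathlib

/-!
The kill certificate for `L = 2`: statements.

`orb e x Z` is the orbit of `Z` over the base orbit `x, 2 x, 4 x, ...`.  `Alive ε x Z` collects
everything that is known about the point `Z = V k t` of the leaf over the base `x = 2 ^ k / 15 + t`.
-/

open Filter Topology

namespace Pool.Agent.W_4481e3_q42

/-- orbit of `Z` over the base orbit of `x` -/
noncomputable def orb (e : ℂ) (x : ℝ) (Z : ℂ) : ℕ → ℂ
  | 0 => Z
  | j + 1 => orb e x Z j + (Real.cos (2 * Real.pi * (2 ^ j * x)) : ℂ) * (e - orb e x Z j ^ 2)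

/-- what is known about a point of the leaf over the base `x` -/
structure Alive (ε : ℂ) (x : ℝ) (Z : ℂ) : Prop where
  bd : ∀ j, ‖orb (ε ^ 2) x Z j‖ ≤ 30
  disc : ∀ j, |Real.cos (2 * Real.pi * (2 ^ j * x))| ≤ 977 / 10000 →
    |Real.cos (2 * Real.pi * (2 ^ j * x))| * ‖orb (ε ^ 2) x Z j‖ < 1 / 2
  half : ∀ (j : ℕ) (n : ℤ), 1 / 4 ≤ 2 ^ j * x - n → 2 ^ j * x - n ≤ 4 / 15 →
    2 * Real.cos (2 * Real.pi * (2 ^ j * x)) * (orb (ε ^ 2) x Z j).re < 1
  nc : ∀ (j : ℕ) (q : ℤ), 2 ^ j * (3 * x) = q →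
    ¬ Tendsto (orb (ε ^ 2) x Z) atTop (𝓝 ε) ∧ ¬ Tendsto (orb (ε ^ 2) x Z) atTop (𝓝 (-ε))

/-- cosine at the base point `2 ^ p / 15` -/
noncomputable def cc (p : ℕ) : ℝ := Real.cos (2 * Real.pi * (2 ^ p / 15))

/-- its derivative -/
noncomputable def dd (p : ℕ) : ℝ := -(2 * Real.pi * Real.sin (2 * Real.pi * (2 ^ p / 15)))

/-- orbit of the centre -/
noncomputable def ww (e : ℂ) (p : ℕ) (w : ℂ) : ℕ → ℂ
  | 0 => w
  | j + 1 => ww e p w j + cc (p + j) * (e - ww e p w j ^ 2)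

/-- slopes along the orbit of the centre -/
noncomputable def aa (e : ℂ) (p : ℕ) (w a : ℂ) : ℕ → ℂ
  | 0 => a
  | j + 1 => ((1 - 2 * cc (p + j) * ww e p w j) * aa e p w a j +
      dd (p + j) * (e - ww e p w j ^ 2)) / 2

/-- the weights, period `4` -/
noncomputable def sig (p : ℕ) : ℝ :=
  if p % 4 = 0 then 63 / 100 else if p % 4 = 1 then 1 else if p % 4 = 2 then 136 / 100 else 445 / 1000

/-- the parameters -/
structure Adm (ε : ℂ) : Prop where
  re : 0 < ε.re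
  im : 0 ≤ ε.im
  le : ε.im ≤ ε.re
  lt_half : ‖ε‖ < 1 / 2

/-- The leaf germ `(w, a)` over the phase `p` with second order constant `κ` on the window `τ`
is killed by a test point. -/
def TestDead (ε : ℂ) (p : ℕ) (w a : ℂ) (κ τ : ℝ) : Prop :=
  ∃ s : ℝ, |s| ≤ τ ∧ ∀ Z : ℂ, ‖Z - (w + a * s)‖ ≤ κ * s ^ 2 / 2 → ¬ Alive ε (2 ^ p / 15 + s) Z

/-- weighted slope at the time `j` after the phase `p` -/
noncomputable def wsl (ε : ℂ) (p : ℕ) (w a : ℂ) (j : ℕ) : ℝ := ‖aa (ε ^ 2) p w a j‖ / sig (p + j)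

/-- **Kill certificate.**  `q` is the phase of the time of nearly maximal weighted slope, `n` the
number of steps before that time (it may depend on `ε` and `q`), `m` the length of the orbit
segment, `κ p A`, `τ p A` are the second order constant and the window. -/
def KillStmt (ε : ℂ) (N m : ℕ) (Λ A₁ A₂ : ℝ) (κ τ : ℕ → ℝ → ℝ) : Prop :=
  ∀ q < 4, ∃ n p, n ≤ N ∧ (p + n) % 4 = q ∧ ∀ w a : ℂ, Alive ε (2 ^ p / 15) w →
    A₁ ≤ wsl ε p w a n → wsl ε p w a n ≤ A₂ →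
    (∀ j ≤ m, wsl ε p w a j ≤ Λ * wsl ε p w a n) →
    ∃ j ≤ m, TestDead ε (p + j) (ww (ε ^ 2) p w j) (aa (ε ^ 2) p w a j)
      (κ (p + j) (wsl ε p w a n)) (τ (p + j) (wsl ε p w a n))

end Pool.Agent.W_4481e3_q42
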