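import Pool.Agent.W_4481e3_q42.Seq
import Pool.Agent.W_4481e3_q42.Stmt

/-!
Closers of the kill certificate: ways to see that a point is not alive.
-/

open Filter Topology

namespace Pool.Agent.W_4481e3_q42

variable {ε : ℂ} {x : ℝ} {Z : ℂ}

/-- one step of the skew product -/
noncomputable def stp (e : ℂ) (x : ℝ) (Z : ℂ) : ℂ :=
  Z + (Real.cos (2 * Real.pi * x) : ℂ) * (e - Z ^ 2)

theorem orb_succ' (e : ℂ) (x : ℝ) (Z : ℂ) (j : ℕ) : orb e x Z (j + 1) = orb e (2 * x) (stp e x Z) j := by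
  induction j with
  | zero => simp [orb, stp]
  | succ j ih =>
    rw [orb, ih, orb]
    have : (2:ℝ) ^ (j + 1) * x = 2 ^ j * (2 * x) := by rw [pow_succ]; ring
    rw [this]

/-- a step of an alive point -/
theorem Alive.next (h : Alive ε x Z) : Alive ε (2 * x) (stp (ε ^ 2) x Z) := by
  have hx : ∀ j : ℕ, (2:ℝ) ^ j * (2 * x) = 2 ^ (j + 1) * x := fun j => by rw [pow_succ]; ring
  refine ⟨fun j => ?_, fun j hj => ?_, fun j n h1 h2 => ?_, fun j q hq => ?_⟩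
  · rw [← orb_succ']; exact h.bd _
  · rw [← orb_succ']
    rw [hx] at hj ⊢
    exact h.disc (j + 1) hj
  · rw [← orb_succ']
    rw [hx] at h1 h2 ⊢
    exact h.half (j + 1) n h1 h2
  · have h1 := h.nc (j + 1) q (by rw [← hq, pow_succ]; ring)
    have key : ∀ ζ : ℂ, ¬ Tendsto (orb (ε ^ 2) x Z) atTop (𝓝 ζ) →
        ¬ Tendsto (orb (ε ^ 2) (2 * x) (stp (ε ^ 2) x Z)) atTop (𝓝 ζ) := by
      intro ζ h2 h3
      apply h2
      rw [← tendsto_add_atTop_iff_nat 1]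
      exact h3.congr fun j => (orb_succ' _ _ _ _).symm
    exact ⟨key _ h1.1, key _ h1.2⟩

/-- every point of the closed ball is dead -/
def Dead (ε : ℂ) (x : ℝ) (v : ℂ) (r : ℝ) : Prop := ∀ Z : ℂ, ‖Z - v‖ ≤ r → ¬ Alive ε x Z

theorem Dead.mono {v v' : ℂ} {r r' : ℝ} (h : Dead ε x v r) (hr : ‖v' - v‖ + r' ≤ r) : Dead ε x v' r' := by
  intro Z hZ
  apply h
  have : Z - v = (Z - v') + (v' - v) := by ring
  rw [this]
  linarith [norm_add_le (Z - v') (v' - v)]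

/-- one step backwards -/
theorem Dead.prev {v v' : ℂ} {r r' : ℝ} (h : Dead ε (2 * x) v' r')
    (hs : ∀ Z : ℂ, ‖Z - v‖ ≤ r → ‖stp (ε ^ 2) x Z - v'‖ ≤ r') : Dead ε x v r :=
  fun Z hZ hA => h _ (hs Z hZ) hA.next

theorem orb_add_int (e : ℂ) (x : ℝ) (n : ℤ) (Z : ℂ) (j : ℕ) : orb e (x + n) Z j = orb e x Z j := by
  induction j with
  | zero => rfl
  | succ j ih =>
    rw [orb, orb, ih]
    have : 2 * Real.pi * (2 ^ j * (x + n)) = 2 * Real.pi * (2 ^ j * x) + ((2 ^ j * n : ℤ) : ℝ) * (2 * Real.pi) := by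
      push_cast; ring
    rw [this, Real.cos_add_int_mul_two_pi]

theorem cos_add_int (x : ℝ) (n : ℤ) (j : ℕ) : Real.cos (2 * Real.pi * (2 ^ j * (x + n))) =
    Real.cos (2 * Real.pi * (2 ^ j * x)) := by
  have : 2 * Real.pi * (2 ^ j * (x + n)) = 2 * Real.pi * (2 ^ j * x) + ((2 ^ j * n : ℤ) : ℝ) * (2 * Real.pi) := by
    push_cast; ring
  rw [this, Real.cos_add_int_mul_two_pi]

theorem Alive.add_int (h : Alive ε x Z) (n : ℤ) : Alive ε (x + n) Z := by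
  have ho : orb (ε ^ 2) (x + n) Z = orb (ε ^ 2) x Z := funext fun j => orb_add_int _ _ _ _ _
  refine ⟨fun j => ?_, fun j hj => ?_, fun j m h1 h2 => ?_, fun j q hq => ?_⟩
  · rw [ho]; exact h.bd j
  · rw [ho]
    rw [cos_add_int] at hj ⊢
    exact h.disc j hj
  · rw [ho, cos_add_int]
    refine h.half j (m - 2 ^ j * n) ?_ ?_
    · push_cast; linarith
    · push_cast; linarith
  · rw [ho]
    refine h.nc j (q - 2 ^ j * (3 * n)) ?_
    push_cast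
    linarith

/-- only the base point modulo `1` matters -/
theorem Dead.congr_base {v : ℂ} {r : ℝ} {x' : ℝ} (h : Dead ε x' v r) (n : ℤ) (hx : x' = x + n) :
    Dead ε x v r := by
  intro Z hZ hA
  exact h Z hZ (hx ▸ hA.add_int n)

/-! ### escape, near violations -/

theorem not_alive_far (h : 30 < ‖Z‖) : ¬ Alive ε x Z := fun hA => by
  have := hA.bd 0
  simp only [orb] at this
  linarith

theorem not_alive_disc {c : ℝ} (hc : Real.cos (2 * Real.pi * x) = c) (h1 : |c| ≤ 977 / 10000)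
    (h : 1 / 2 ≤ |c| * ‖Z‖) : ¬ Alive ε x Z := fun hA => by
  have := hA.disc 0
  simp only [orb, pow_zero, one_mul] at this
  rw [hc] at this
  have := this h1
  linarith

theorem not_alive_half {c : ℝ} (hc : Real.cos (2 * Real.pi * x) = c) (n : ℤ) (h1 : 1 / 4 ≤ x - n)
    (h2 : x - n ≤ 4 / 15) (h : 1 ≤ 2 * c * Z.re) : ¬ Alive ε x Z := fun hA => by
  have := hA.half 0 n
  simp only [orb, pow_zero, one_mul] at this
  rw [hc] at this
  have := this h1 h2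
  linarith

/-! ### base `0` -/

theorem cos_of_int {n : ℤ} (hx : x = n) (j : ℕ) : Real.cos (2 * Real.pi * (2 ^ j * x)) = 1 := by
  have : 2 * Real.pi * (2 ^ j * x) = 0 + ((2 ^ j * n : ℤ) : ℝ) * (2 * Real.pi) := by
    rw [hx]; push_cast; ring
  rw [this, Real.cos_add_int_mul_two_pi, Real.cos_zero]

theorem orb_of_int {n : ℤ} (hx : x = n) (e : ℂ) (j : ℕ) :
    orb e x Z (j + 1) = orb e x Z j + (e - orb e x Z j ^ 2) := by
  rw [orb, cos_of_int hx]; push_cast; ring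

/-- escape over the base `0` -/
theorem not_alive_esc0 {n : ℤ} (hx : x = n) {r : ℝ} (hr : r + ‖1 / 4 - ε ^ 2‖ < r ^ 2) (hr0 : 1 / 2 ≤ r)
    (h : r ≤ ‖Z - 1 / 2‖) : ¬ Alive ε x Z := fun hA => by
  obtain ⟨j, hj⟩ := quad_escape (u := fun j => 1 / 2 - orb (ε ^ 2) x Z j) (κ := 1 / 4 - ε ^ 2)
    (fun j => by
      show 1 / 2 - orb (ε ^ 2) x Z (j + 1) = (1 / 2 - orb (ε ^ 2) x Z j) ^ 2 + (1 / 4 - ε ^ 2)
      rw [orb_of_int hx]; ring) le_rfl hr hr0 (by rw [norm_sub_rev] at h; exact h) 31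
  have h1 := hA.bd j
  have h2 : ‖1 / 2 - orb (ε ^ 2) x Z j‖ ≤ 1 / 2 + ‖orb (ε ^ 2) x Z j‖ := by
    refine (norm_sub_le _ _).trans ?_
    norm_num
  linarith

theorem half_sub_lt (hA : Adm ε) : ‖1 / 2 - ε‖ < 1 / 2 := by
  have h1 : ‖ε‖ ^ 2 = ε.re ^ 2 + ε.im ^ 2 := by rw [Complex.sq_norm, Complex.normSq_apply]; ring
  have h2 : ‖1 / 2 - ε‖ ^ 2 = 1 / 4 - ε.re + (ε.re ^ 2 + ε.im ^ 2) := by
    rw [Complex.sq_norm, Complex.normSq_apply]
    have e1 : (1 / 2 - ε).re = 1 / 2 - ε.re := by simp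
    have e2 : (1 / 2 - ε).im = -ε.im := by simp
    rw [e1, e2]; ring
  have h3 := hA.re
  have h4 := hA.im
  have h5 := hA.le
  have h6 := hA.lt_half
  have h7 : ε.re < 1 / 2 := (Complex.re_le_norm ε).trans_lt h6
  have h8 : ε.im ^ 2 ≤ ε.re ^ 2 := by gcongr
  have h9 : ‖1 / 2 - ε‖ ^ 2 < (1 / 2) ^ 2 := by rw [h2]; nlinarith
  exact lt_of_pow_lt_pow_left₀ 2 (by norm_num) h9

/-- the trap `|1/2 - Z| ≤ r` over the base `0` -/
theorem not_alive_disc0 (hε : Adm ε) {n : ℤ} (hx : x = n) {r : ℝ} (hr : r ^ 2 + ‖1 / 4 - ε ^ 2‖ < r)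
    (h : ‖Z - 1 / 2‖ ≤ r) : ¬ Alive ε x Z := fun hA => by
  have h1 := quad_trap (u := fun j => 1 / 2 - orb (ε ^ 2) x Z j) (κ := 1 / 4 - ε ^ 2) (α := 1 / 2 - ε)
    (fun j => by
      show 1 / 2 - orb (ε ^ 2) x Z (j + 1) = (1 / 2 - orb (ε ^ 2) x Z j) ^ 2 + (1 / 4 - ε ^ 2)
      rw [orb_of_int hx]; ring) (by ring) (half_sub_lt hε) le_rfl hr
      (by rw [norm_sub_rev] at h; exact h)
  have h2 := (tendsto_const_nhds (x := (1 / 2 : ℂ))).sub h1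
  simp only [sub_sub_cancel] at h2
  refine (hA.nc 0 (3 * n) ?_).1 h2
  rw [hx]; push_cast; ring

theorem sq_lt_re (hA : Adm ε) : ε.re ^ 2 + ε.im ^ 2 < ε.re := by
  have h3 := hA.re
  have h5 := hA.le
  have h4 := hA.im
  have h7 : ε.re < 1 / 2 := (Complex.re_le_norm ε).trans_lt hA.lt_half
  have h8 : ε.im ^ 2 ≤ ε.re ^ 2 := by gcongr
  nlinarith

/-- the Apollonius trap over the base `0` -/
theorem not_alive_apol0 (hε : Adm ε) {n : ℤ} (hx : x = n)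
    (h : (ε.re ^ 2 + ε.im ^ 2) * ε.re * (Z.re ^ 2 + Z.im ^ 2 + (ε.re ^ 2 + ε.im ^ 2)) <
      (ε.re ^ 2 + (ε.re ^ 2 + ε.im ^ 2) ^ 2) * (ε.re * Z.re + ε.im * Z.im)) : ¬ Alive ε x Z := fun hA => by
  have h1 := apol_trap (u := orb (ε ^ 2) x Z) (fun j => orb_of_int hx _ j) hε.re (sq_lt_re hε) h
  refine (hA.nc 0 (3 * n) ?_).1 h1
  rw [hx]; push_cast; ring

/-! ### base `1 / 3` -/

theorem cos_of_third {q : ℤ} (hx : 3 * x = q) (hq : ¬ (3 ∣ q)) (j : ℕ) :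
    Real.cos (2 * Real.pi * (2 ^ j * x)) = -1 / 2 := by
  have hc3 : Real.cos (2 * Real.pi / 3) = -1 / 2 := by
    have : 2 * Real.pi / 3 = Real.pi - Real.pi / 3 := by ring
    rw [this, Real.cos_pi_sub, Real.cos_pi_div_three]; norm_num
  have hq' : ¬ (3 ∣ 2 ^ j * q) := by
    intro h
    rcases (Int.prime_three.dvd_mul.1 h) with h | h
    · have := Int.prime_three.dvd_of_dvd_pow h
      omega
    · exact hq h
  have h3 : (2:ℝ) ^ j * x = ((2 ^ j * q : ℤ) : ℝ) / 3 := by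
    push_cast; rw [← hx]; ring
  rw [h3]
  generalize (2 ^ j * q : ℤ) = p at hq' 
  obtain ⟨m, hm⟩ : ∃ m : ℤ, p = 3 * m + 1 ∨ p = 3 * m + 2 := ⟨p / 3, by omega⟩
  rcases hm with rfl | rfl
  · push_cast
    have : 2 * Real.pi * ((3 * (m:ℝ) + 1) / 3) = 2 * Real.pi / 3 + m * (2 * Real.pi) := by ring
    rw [this, Real.cos_add_int_mul_two_pi, hc3]
  · push_cast
    have : 2 * Real.pi * ((3 * (m:ℝ) + 2) / 3) = -(2 * Real.pi / 3) + ((m + 1 : ℤ) : ℝ) * (2 * Real.pi) := by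
      push_cast; ring
    rw [this, Real.cos_add_int_mul_two_pi, Real.cos_neg, hc3]

theorem orb_of_third {q : ℤ} (hx : 3 * x = q) (hq : ¬ (3 ∣ q)) (e : ℂ) (j : ℕ) :
    orb e x Z (j + 1) = orb e x Z j - (e - orb e x Z j ^ 2) / 2 := by
  rw [orb, cos_of_third hx hq]; push_cast; ring

/-- escape over the base `1 / 3` -/
theorem not_alive_esc3 {q : ℤ} (hx : 3 * x = q) (hq : ¬ (3 ∣ q)) {r : ℝ}
    (hr : r + ‖1 / 4 - ε ^ 2 / 4‖ < r ^ 2) (hr0 : 1 / 2 ≤ r)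
    (h : 2 * r ≤ ‖Z + 1‖) : ¬ Alive ε x Z := fun hA => by
  obtain ⟨j, hj⟩ := quad_escape (u := fun j => 1 / 2 + orb (ε ^ 2) x Z j / 2) (κ := 1 / 4 - ε ^ 2 / 4)
    (fun j => by
      show 1 / 2 + orb (ε ^ 2) x Z (j + 1) / 2 = (1 / 2 + orb (ε ^ 2) x Z j / 2) ^ 2 + (1 / 4 - ε ^ 2 / 4)
      rw [orb_of_third hx hq]; ring) le_rfl hr hr0 (by
        show r ≤ ‖1 / 2 + Z / 2‖
        have : (1 : ℂ) / 2 + Z / 2 = (Z + 1) / 2 := by ring
        rw [this, norm_div, Complex.norm_ofNat]; linarith) 31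
  have h1 := hA.bd j
  have h2 : ‖1 / 2 + orb (ε ^ 2) x Z j / 2‖ ≤ 1 / 2 + ‖orb (ε ^ 2) x Z j‖ / 2 := by
    refine (norm_add_le _ _).trans ?_
    rw [norm_div, norm_div, norm_one, Complex.norm_ofNat]
  linarith

theorem Adm.half (hA : Adm ε) : Adm (ε / 2) := by
  have e1 : (ε / 2).re = ε.re / 2 := by simp
  have e2 : (ε / 2).im = ε.im / 2 := by simp
  refine ⟨?_, ?_, ?_, ?_⟩
  · rw [e1]; linarith [hA.re]
  · rw [e2]; linarith [hA.im]
  · rw [e1, e2]; linarith [hA.le]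
  · rw [norm_div, Complex.norm_ofNat]; linarith [hA.lt_half, norm_nonneg ε]

/-- the limit in the coordinate `-Z/2` -/
theorem third_lim {q : ℤ} (hx : 3 * x = q) (hA : Alive ε x Z)
    (h : Tendsto (fun j => -(orb (ε ^ 2) x Z j) / 2) atTop (𝓝 (ε / 2))) : False := by
  have h2 := h.const_mul (-2 : ℂ)
  have e1 : (-2 : ℂ) * (ε / 2) = -ε := by ring
  rw [e1] at h2
  refine (hA.nc 0 q (by rw [pow_zero, one_mul]; exact hx)).2 (h2.congr fun j => ?_)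
  ring

/-- the trap `|1 + Z| ≤ 2 r` over the base `1 / 3` -/
theorem not_alive_disc3 (hε : Adm ε) {q : ℤ} (hx : 3 * x = q) (hq : ¬ (3 ∣ q)) {r : ℝ}
    (hr : r ^ 2 + ‖1 / 4 - ε ^ 2 / 4‖ < r) (h : ‖Z + 1‖ ≤ 2 * r) : ¬ Alive ε x Z := fun hA => by
  have h1 := quad_trap (u := fun j => 1 / 2 + orb (ε ^ 2) x Z j / 2) (κ := 1 / 4 - ε ^ 2 / 4)
    (α := 1 / 2 - ε / 2)
    (fun j => by
      show 1 / 2 + orb (ε ^ 2) x Z (j + 1) / 2 = (1 / 2 + orb (ε ^ 2) x Z j / 2) ^ 2 + (1 / 4 - ε ^ 2 / 4)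
      rw [orb_of_third hx hq]; ring) (by ring) (half_sub_lt hε.half) le_rfl hr
      (by
        show ‖1 / 2 + Z / 2‖ ≤ r
        have : (1 : ℂ) / 2 + Z / 2 = (Z + 1) / 2 := by ring
        rw [this, norm_div, Complex.norm_ofNat]; linarith)
  refine third_lim hx hA ?_
  have h2 := (tendsto_const_nhds (x := (1 / 2 : ℂ))).sub h1
  simp only [sub_sub_cancel] at h2
  refine h2.congr fun j => ?_
  ring

/-- the Apollonius trap over the base `1 / 3` -/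
theorem not_alive_apol3 (hε : Adm ε) {q : ℤ} (hx : 3 * x = q) (hq : ¬ (3 ∣ q)) {U η : ℂ}
    (hU : U = -Z / 2) (hη : η = ε / 2)
    (h : (η.re ^ 2 + η.im ^ 2) * η.re * (U.re ^ 2 + U.im ^ 2 + (η.re ^ 2 + η.im ^ 2)) <
      (η.re ^ 2 + (η.re ^ 2 + η.im ^ 2) ^ 2) * (η.re * U.re + η.im * U.im)) : ¬ Alive ε x Z := fun hA => by
  have h0 := hε.half
  rw [← hη] at h0
  have h1 := apol_trap (ε := η) (u := fun j => -(orb (ε ^ 2) x Z j) / 2) (fun j => by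
    show -(orb (ε ^ 2) x Z (j + 1)) / 2 = -(orb (ε ^ 2) x Z j) / 2 + (η ^ 2 - (-(orb (ε ^ 2) x Z j) / 2) ^ 2)
    rw [orb_of_third hx hq, hη]; ring) h0.re (sq_lt_re h0) (by
      show (η.re ^ 2 + η.im ^ 2) * η.re * ((-Z / 2).re ^ 2 + (-Z / 2).im ^ 2 + (η.re ^ 2 + η.im ^ 2)) <
        (η.re ^ 2 + (η.re ^ 2 + η.im ^ 2) ^ 2) * (η.re * (-Z / 2).re + η.im * (-Z / 2).im)
      rw [← hU]; exact h)
  rw [hη] at h1
  exact third_lim hx hA h1

end Pool.Agent.W_4481e3_q42
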