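import Pool.Agent.W_4481e3_q42.EvK
import Pool.Agent.W_4481e3_q12.SndA

/-!
Soundness of the first order step.
-/

namespace Pool.Agent.W_4481e3_q42.Ev

open Complex
open Pool.Agent.W_MP_4481e3_an.Ev (gd nrm1 pt InB gd_true div_lower div_upper
  nrm1_sound norm_pt_sq norm_le_sqrt_two ndiv_eq)
open Pool.Agent.W_4481e3_q12.Ev (ds nrm fid neg nrm_sound ds_cast stp InE centre Flip flip_fid flip_neg
  coord)

/-- coefficient of a form -/
noncomputable def cf (F G : ℕ) : ℂ := ⟨((F:ℝ) - 268435456) / 65536, ((G:ℝ) - 268435456) / 65536⟩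

/-- centre of the parameter ball -/
noncomputable def k0 (X Y : ℕ) : ℂ := ⟨(X : ℝ), (Y : ℝ)⟩

/-- first order form in `E - k0` -/
def InF (X Y : ℕ) (E : ℂ) (A B r F G : ℕ) (W : ℂ) : Prop :=
  ‖W - (pt A B + cf F G * (E - k0 X Y))‖ ≤ r

lemma nrq_sound {a b : ℕ} {x : ℝ} (hx : x ^ 2 ≤ (a:ℝ) ^ 2 + (b:ℝ) ^ 2) : x ≤ nrq a b := by
  unfold nrq
  apply nrm1_sound (Nat.succ_pos _)
  simp only [Nat.add_eq, Nat.mul_eq]
  push_cast
  linarith

/-- the signed difference -/
def Sb (sb : ℕ → ℕ → ℕ → ℕ) (σ : ℝ) : Prop :=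
  ∀ K P Q : ℕ, |(P:ℝ) - Q| ≤ K → ((sb K P Q : ℕ) : ℝ) = K - σ * ((P:ℝ) - Q)

lemma sb_pos : Sb sbp 1 := by
  intro K P Q h
  unfold sbp
  simp only [Nat.sub_eq, Nat.add_eq]
  have h1 := (abs_le.1 h).2
  have h2 : P ≤ K + Q := by
    have : (P:ℝ) ≤ ((K + Q : ℕ) : ℝ) := by push_cast; linarith
    exact_mod_cast this
  rw [Nat.cast_sub h2]; push_cast; ring

lemma sb_neg : Sb sbn (-1) := by
  intro K P Q h
  unfold sbn
  simp only [Nat.sub_eq, Nat.add_eq]
  have h1 := (abs_le.1 h).1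
  have h2 : Q ≤ K + P := by
    have : (Q:ℝ) ≤ ((K + P : ℕ) : ℝ) := by push_cast; linarith
    exact_mod_cast this
  rw [Nat.cast_sub h2]; push_cast; ring

/-- one coordinate of the new coefficient -/
lemma coef {sb : ℕ → ℕ → ℕ → ℕ} {σ : ℝ} (hs : Sb sb σ) (hσ : |σ| = 1) {C F K P Q : ℕ} {u x : ℝ}
    (hC : C ≤ 16777216) (hK : (K:ℝ) = 4503599627370496 + σ * u) (hu : |u| ≤ 549755813888)
    (hPQ : (P:ℝ) - Q = 1099511627776 * x) (hx : |x| ≤ 1400) (hF : |(F:ℝ) - 268435456| ≤ 16777216) :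
    ∃ θ : ℝ, |θ| ≤ 1 ∧ (((F + C * sb K P Q / 140737488355328 - 32 * C : ℕ) : ℝ) - 268435456) =
      ((F:ℝ) - 268435456) + σ * (C / 16777216) * ((u - 1099511627776 * x) / 8388608) - θ := by
  have hσ1 := (abs_le.1 hσ.le)
  have hb : |σ * u| ≤ 549755813888 := by rw [abs_mul, hσ, one_mul]; exact hu
  have hb' := abs_le.1 hb
  have hx1 : |1099511627776 * x| ≤ 1099511627776 * 1400 := by
    rw [abs_mul, abs_of_pos (by norm_num : (0:ℝ) < 1099511627776)]
    exact mul_le_mul_of_nonneg_left hx (by norm_num)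
  have h1 := hs K P Q (by rw [hPQ, hK]; linarith)
  rw [hPQ, hK] at h1
  have hX : ((sb K P Q : ℕ) : ℝ) = 4503599627370496 + σ * (u - 1099511627776 * x) := by
    rw [h1]; ring
  have l1 := div_lower (C * sb K P Q) 140737488355328 (by norm_num)
  have u1 := div_upper (C * sb K P Q) 140737488355328
  push_cast at l1 u1
  rw [hX] at l1 u1
  have hCr : (C:ℝ) ≤ 16777216 := by exact_mod_cast hC
  have hC0 : (0:ℝ) ≤ C := Nat.cast_nonneg _
  have hu' := abs_le.1 hu
  have hx' := abs_le.1 hx1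
  have hσu : |σ * (u - 1099511627776 * x)| ≤ 1540000000000000 := by
    rw [abs_mul, hσ, one_mul, abs_le]
    constructor <;> linarith
  have hσu' := abs_le.1 hσu
  have hCs : |(C:ℝ) * (σ * (u - 1099511627776 * x))| ≤ 16777216 * 1540000000000000 := by
    rw [abs_mul, abs_of_nonneg hC0]
    exact mul_le_mul hCr hσu (abs_nonneg _) (by norm_num)
  have hCs' := abs_le.1 hCs
  have hF' := abs_le.1 hF
  have hdiv : (C:ℝ) * (4503599627370496 + σ * (u - 1099511627776 * x)) / 140737488355328 =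
      32 * C + C * (σ * (u - 1099511627776 * x)) / 140737488355328 := by ring
  rw [hdiv] at l1 u1
  have hle : 32 * C ≤ F + C * sb K P Q / 140737488355328 := by
    have : ((32 * C : ℕ) : ℝ) ≤ ((F + C * sb K P Q / 140737488355328 : ℕ) : ℝ) := by
      push_cast
      have : -(184000000 : ℝ) ≤ C * (σ * (u - 1099511627776 * x)) / 140737488355328 := by
        rw [le_div_iff₀ (by norm_num)]; linarith
      linarith
    exact_mod_cast this
  refine ⟨(32 * C + C * (σ * (u - 1099511627776 * x)) / 140737488355328) -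
    ((C * sb K P Q / 140737488355328 : ℕ) : ℝ), ?_, ?_⟩
  · rw [abs_le]; constructor <;> linarith
  · rw [Nat.cast_sub hle]
    push_cast
    ring

/-- admissible data for one step -/
structure PhK (f : ℕ → ℕ) (sb : ℕ → ℕ → ℕ → ℕ) (KF C D : ℕ) (c : ℝ) : Prop where
  ex : ∃ σ : ℝ, (σ = 1 ∨ σ = -1) ∧ Flip f σ ∧ Sb sb σ ∧ (KF:ℝ) = 4503599627370496 + σ * 549755813888 ∧
    |16777216 * c - σ * C| ≤ 1
  hD : D = C * 536870912
  hC : C ≤ 16777216
  hc : |c| ≤ 1

theorem ste_sound {f : ℕ → ℕ} {sb : ℕ → ℕ → ℕ → ℕ} {KF C D : ℕ} {c : ℝ} (hp : PhK f sb KF C D c)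
    {X Y t te A B r F G : ℕ} {E W : ℂ} {k : ℕ → ℕ → ℕ → ℕ → ℕ → Bool}
    (hX : X ≤ 4194304) (hY : Y ≤ 4194304) (ht : t ≤ 16777216) (hte : (t:ℝ) * 3 / 131072 + 36 ≤ te)
    (hE : ‖E - k0 X Y‖ ≤ t) (hW : InF X Y E A B r F G W)
    (h : ste f sb KF C D X Y t te A B r F G k = true) :
    ∃ A' B' r' F' G' : ℕ, k A' B' r' F' G' = true ∧ InF X Y E A' B' r' F' G' (stp c E W) := by
  obtain ⟨⟨σ, hσ, hf, hsb, hKF, hcC⟩, hD, hC, hc⟩ := hp
  have hσ1 : |σ| = 1 := by rcases hσ with h | h <;> rw [h] <;> simp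
  have hσ2 : σ * σ = 1 := by rcases hσ with h | h <;> rw [h] <;> ring
  unfold ste q2 q3 q4 q5 q6 at h
  simp only [Nat.add_eq, Nat.mul_eq, Nat.sub_eq, ndiv_eq] at h
  rw [gd_true, gd_true] at h
  obtain ⟨h1, h2, h3⟩ := h
  have hN := Nat.le_of_ble_eq_true h1
  have hnE := Nat.le_of_ble_eq_true h2
  refine ⟨_, _, _, _, _, h3, ?_⟩
  clear h3 h2 h1
  unfold InF at *
  have hcs := centre (X := X) (Y := Y) (A := A) (B := B) (by omega)
  -- the coefficient
  have hFr : ((ds F 268435456 : ℕ) : ℝ) = |(F:ℝ) - 268435456| := by rw [ds_cast]; norm_num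
  have hGr : ((ds G 268435456 : ℕ) : ℝ) = |(G:ℝ) - 268435456| := by rw [ds_cast]; norm_num
  have hFG : ‖cf F G‖ * 65536 ≤ nrq (ds F 268435456) (ds G 268435456) := by
    apply nrq_sound
    rw [hFr, hGr, sq_abs, sq_abs, mul_pow, Complex.sq_norm, Complex.normSq_apply]
    unfold cf
    simp only
    apply le_of_eq; ring
  set nE := nrq (ds F 268435456) (ds G 268435456) with hnEd
  clear_value nE
  clear hnEd hFr hGr
  set a := ds A 536870912 with ha
  set b := ds B 536870912 with hb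
  set s := ds (A + B) 1073741824 with hs
  set U := (b * b + 9007199254740992 - a * a) / 16777216 + X with hUdef
  set V := (a * a + b * b + 9007199254740992 - s * s) / 16777216 + Y with hVdef
  set z := pt A B with hz
  set z1 := pt U V with hz1
  have haa : ((a:ℕ):ℝ) = |(A:ℝ) - 536870912| := by rw [ha, ds_cast]; norm_num
  have hbb : ((b:ℕ):ℝ) = |(B:ℝ) - 536870912| := by rw [hb, ds_cast]; norm_num
  clear_value U V a b s
  clear hUdef hVdef ha hb hs
  have hMl := div_lower (nE * t) 65536 (by norm_num)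
  set R := nE * t / 65536 + 1 + r with hR
  have hRr : (R:ℝ) = ((nE * t / 65536 : ℕ) : ℝ) + 1 + r := by rw [hR]; push_cast; ring
  clear_value R
  clear hR
  have hNr : (a:ℝ) ^ 2 + (b:ℝ) ^ 2 + 33554432 * R ≤ 7318349394477056 := by
    have : ((a * a + b * b + 33554432 * R : ℕ) : ℝ) ≤ 7318349394477056 := by exact_mod_cast hN
    push_cast at this
    linarith
  clear hN
  have hr0 : (0:ℝ) ≤ r := Nat.cast_nonneg _
  have hR0 : (0:ℝ) ≤ R := Nat.cast_nonneg _
  have hR1 : (R:ℝ) ≤ 218103808 := by nlinarith [sq_nonneg (a:ℝ), sq_nonneg (b:ℝ)]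
  have hz4 : ‖z‖ ≤ 86000000 := by
    have e1 : ‖z‖ ^ 2 ≤ 86000000 ^ 2 := by
      rw [hz, norm_pt_sq, ← sq_abs ((A:ℝ) - 536870912), ← sq_abs ((B:ℝ) - 536870912), ← haa, ← hbb]
      linarith
    exact le_of_sq_le_sq e1 (by norm_num)
  have hz26 : ‖z‖ ^ 2 ≤ 7318349394477056 := by
    rw [hz, norm_pt_sq, ← sq_abs ((A:ℝ) - 536870912), ← sq_abs ((B:ℝ) - 536870912), ← haa, ← hbb]
    linarith
  have habs1 : |(A:ℝ) - 536870912| ≤ 86000000 := (Complex.abs_re_le_norm z).trans hz4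
  have habs2 : |(B:ℝ) - 536870912| ≤ 86000000 := (Complex.abs_im_le_norm z).trans hz4
  have h16 : ‖(16777216 : ℂ)‖ = 16777216 := by simp
  have hk2 : ‖k0 X Y‖ ≤ 6291456 := by
    have hX' : (X:ℝ) ≤ 4194304 := by exact_mod_cast hX
    have hY' : (Y:ℝ) ≤ 4194304 := by exact_mod_cast hY
    have e1 : ‖k0 X Y‖ ≤ 3 / 2 * 4194304 := by
      apply norm_le_sqrt_two
      · unfold k0; simp only [Nat.abs_cast]; exact hX'
      · unfold k0; simp only [Nat.abs_cast]; exact hY'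
    linarith
  clear hX hY
  have hcs' : ‖(k0 X Y - z ^ 2 / 16777216) - z1‖ ≤ 3 / 2 := hcs
  clear hcs
  set kk : ℂ := k0 X Y with hk0
  clear_value kk
  have hsq : ‖z ^ 2 / 16777216‖ ≤ 436207616 := by
    rw [norm_div, norm_pow, h16, div_le_iff₀ (by norm_num)]
    linarith
  have hkz : ‖kk - z ^ 2 / 16777216‖ ≤ 442499072 := by
    refine (norm_sub_le _ _).trans ?_
    linarith
  have hz1n : ‖z1‖ ≤ 442500000 := by
    have e1 : z1 = (kk - z ^ 2 / 16777216) - ((kk - z ^ 2 / 16777216) - z1) := by ring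
    rw [e1]
    refine (norm_sub_le _ _).trans ?_
    linarith
  have habs3 : |(U:ℝ) - 536870912| ≤ 442500000 := (Complex.abs_re_le_norm z1).trans hz1n
  have habs4 : |(V:ℝ) - 536870912| ≤ 442500000 := (Complex.abs_im_le_norm z1).trans hz1n
  obtain ⟨θ1, hθ1, e1⟩ := coord hf hσ1.le hD hC habs1 habs3
  obtain ⟨θ2, hθ2, e2⟩ := coord hf hσ1.le hD hC habs2 habs4
  -- new coefficient
  set ε := cf F G with hε
  have hnE2 : (nE:ℝ) ≤ 16777216 := by exact_mod_cast hnE
  have hεn : ‖ε‖ ≤ 256 := by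
    have : ‖ε‖ * 65536 ≤ 16777216 := hFG.trans hnE2
    linarith
  have hF1 : |(F:ℝ) - 268435456| ≤ 16777216 := by
    have h1 := (Complex.abs_re_le_norm ε).trans hεn
    have h2 : ε.re = ((F:ℝ) - 268435456) / 65536 := rfl
    rw [h2, abs_div, abs_of_pos (by norm_num : (0:ℝ) < 65536), div_le_iff₀ (by norm_num)] at h1
    linarith
  have hG1 : |(G:ℝ) - 268435456| ≤ 16777216 := by
    have h1 := (Complex.abs_im_le_norm ε).trans hεn
    have h2 : ε.im = ((G:ℝ) - 268435456) / 65536 := rfl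
    rw [h2, abs_div, abs_of_pos (by norm_num : (0:ℝ) < 65536), div_le_iff₀ (by norm_num)] at h1
    linarith
  set p : ℂ := z / 16777216 * ε with hpd
  have hpn : ‖p‖ ≤ 1400 := by
    rw [hpd, norm_mul, norm_div, h16]
    have : ‖z‖ / 16777216 ≤ 86000000 / 16777216 := div_le_div_of_nonneg_right hz4 (by norm_num)
    calc ‖z‖ / 16777216 * ‖ε‖ ≤ 86000000 / 16777216 * 256 :=
          mul_le_mul this hεn (norm_nonneg _) (by norm_num)
      _ ≤ 1400 := by norm_num
  have hz16 : z / 16777216 = ⟨((A:ℝ) - 536870912) / 16777216, ((B:ℝ) - 536870912) / 16777216⟩ := by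
    have e16 : (16777216 : ℂ) = ((16777216 : ℝ) : ℂ) := by norm_num
    rw [e16]
    apply Complex.ext
    · rw [Complex.div_ofReal_re]; rfl
    · rw [Complex.div_ofReal_im]; rfl
  have hpre : p.re = (((A:ℝ) - 536870912) * ((F:ℝ) - 268435456) -
      ((B:ℝ) - 536870912) * ((G:ℝ) - 268435456)) / 1099511627776 := by
    rw [hpd, hz16, hε, Complex.mul_re]; unfold cf; simp only; ring
  have hpim : p.im = (((A:ℝ) - 536870912) * ((G:ℝ) - 268435456) +
      ((B:ℝ) - 536870912) * ((F:ℝ) - 268435456)) / 1099511627776 := by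
    rw [hpd, hz16, hε, Complex.mul_im]; unfold cf; simp only; ring
  obtain ⟨φ1, hφ1, e3⟩ := coef (sb := sb) (F := F) (K := KF)
    (P := A * F + (536870912 * G + 268435456 * B)) (Q := B * G + (536870912 * F + 268435456 * A))
    hsb hσ1 hC (u := 549755813888) (x := p.re) hKF (by norm_num) (by rw [hpre]; push_cast; ring)
    ((Complex.abs_re_le_norm p).trans hpn) hF1
  obtain ⟨φ2, hφ2, e4⟩ := coef (sb := sb) (F := G) (K := 4503599627370496)
    (P := A * G + B * F + 288230376151711744) (Q := 536870912 * (F + G) + 268435456 * (A + B))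
    hsb hσ1 hC (u := 0) (x := p.im) (by push_cast; ring) (by norm_num)
    (by rw [hpim]; push_cast; ring) ((Complex.abs_im_le_norm p).trans hpn) hG1
  set A' := (16777216 * A + C * f U - D) / 16777216 with hA'
  set B' := (16777216 * B + C * f V - D) / 16777216 with hB'
  set F' := F + C * sb KF (A * F + (536870912 * G + 268435456 * B))
    (B * G + (536870912 * F + 268435456 * A)) / 140737488355328 - 32 * C with hF'
  set G' := G + C * sb 4503599627370496 (A * G + B * F + 288230376151711744)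
    (536870912 * (F + G) + 268435456 * (A + B)) / 140737488355328 - 32 * C with hG'
  clear_value A' B' F' G'
  clear hA' hB' hF' hG'
  have hCr : (C:ℝ) ≤ 16777216 := by exact_mod_cast hC
  have hC0 : (0:ℝ) ≤ C := Nat.cast_nonneg _
  set q : ℝ := σ * (C / 16777216) with hq
  have hqabs : |q| = (C:ℝ) / 16777216 := by
    rw [hq, abs_mul, hσ1, one_mul, abs_of_nonneg (by positivity)]
  have hq1 : |q| ≤ 1 := by
    rw [hqabs, div_le_one (by norm_num)]; exact hCr
  have hcq : |c - q| ≤ 1 / 16777216 := by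
    have : c - q = (16777216 * c - σ * C) / 16777216 := by rw [hq]; ring
    rw [this, abs_div, abs_of_pos (show (0:ℝ) < 16777216 by norm_num)]
    exact div_le_div_of_nonneg_right hcC (by norm_num)
  have hz' : pt A' B' = z + (q:ℂ) * z1 - ⟨θ1, θ2⟩ := by
    apply Complex.ext
    · show (A':ℝ) - 536870912 = _
      rw [e1, Complex.sub_re, Complex.add_re, Complex.re_ofReal_mul, hz, hz1]
      rfl
    · show (B':ℝ) - 536870912 = _
      rw [e2, Complex.sub_im, Complex.add_im, Complex.im_ofReal_mul, hz, hz1]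
      rfl
  have hθ : ‖(⟨θ1, θ2⟩ : ℂ)‖ ≤ 3 / 2 := by
    have := norm_le_sqrt_two (z := ⟨θ1, θ2⟩) (x := 1) hθ1 hθ2
    linarith
  have hε' : cf F' G' = ε + (q:ℂ) - 2 * (q:ℂ) * p - ⟨φ1, φ2⟩ / 65536 := by
    have e65 : (65536 : ℂ) = ((65536 : ℝ) : ℂ) := by norm_num
    have e2q : 2 * (q:ℂ) * p = ((2 * q : ℝ) : ℂ) * p := by push_cast; ring
    rw [e65, e2q]
    apply Complex.ext
    · show ((F':ℝ) - 268435456) / 65536 = _
      rw [e3, Complex.sub_re, Complex.sub_re, Complex.add_re, Complex.re_ofReal_mul,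
        Complex.div_ofReal_re, Complex.ofReal_re]
      show _ = ((F:ℝ) - 268435456) / 65536 + q - 2 * q * p.re - φ1 / 65536
      ring
    · show ((G':ℝ) - 268435456) / 65536 = _
      rw [e4, Complex.sub_im, Complex.sub_im, Complex.add_im, Complex.im_ofReal_mul,
        Complex.div_ofReal_im, Complex.ofReal_im]
      show _ = ((G:ℝ) - 268435456) / 65536 + 0 - 2 * q * p.im - φ2 / 65536
      ring
  have hφ : ‖(⟨φ1, φ2⟩ : ℂ)‖ ≤ 3 / 2 := by
    have := norm_le_sqrt_two (z := ⟨φ1, φ2⟩) (x := 1) hφ1 hφ2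
    linarith
  -- the factor
  have hA2 : A ≤ 1073741824 := by
    have : (A:ℝ) ≤ 1073741824 := by have := (abs_le.1 habs1).2; linarith
    exact_mod_cast this
  have hfA := hf A hA2
  set X1 := 2 * C * f A with hX1
  set X2 := 281474976710656 + 2 * D with hX2
  set m := ds X1 X2 / 16777216 + 1 with hm
  set n := 2 * C * b / 16777216 + 1 with hn
  set Fc : ℂ := (16777216 - 2 * (q:ℂ) * z) with hFc
  have hFre : Fc.re = 16777216 - 2 * q * ((A:ℝ) - 536870912) := by
    rw [hFc, Complex.sub_re]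
    have : 2 * (q:ℂ) * z = ((2 * q : ℝ) : ℂ) * z := by push_cast; ring
    have h0 : (16777216 : ℂ).re = 16777216 := by norm_num
    rw [this, Complex.re_ofReal_mul, h0]
    rfl
  have hFim : Fc.im = - (2 * q * ((B:ℝ) - 536870912)) := by
    rw [hFc, Complex.sub_im]
    have : 2 * (q:ℂ) * z = ((2 * q : ℝ) : ℂ) * z := by push_cast; ring
    have h0 : (16777216 : ℂ).im = 0 := by norm_num
    rw [this, Complex.im_ofReal_mul, h0, zero_sub]
    rfl
  have hX12 : (X1:ℝ) - X2 = - (16777216 * Fc.re) := by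
    rw [hX1, hX2, hFre, hq, hD]
    push_cast
    have : (f A : ℝ) = σ * ((A:ℝ) - 536870912) + 536870912 := by linarith
    rw [this]
    ring
  clear_value X1 X2
  have hmre : |Fc.re| ≤ m := by
    have e3 := div_lower (ds X1 X2) 16777216 (by norm_num)
    rw [ds_cast] at e3
    rw [hX12, abs_neg, abs_mul, abs_of_pos (show (0:ℝ) < 16777216 by norm_num)] at e3
    push_cast at e3
    rw [hm]
    push_cast
    linarith
  have hnim : |Fc.im| ≤ n := by
    have e3 := div_lower (2 * C * b) 16777216 (by norm_num)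
    push_cast at e3
    rw [hn]
    push_cast
    rw [hFim, abs_neg, abs_mul, abs_mul, hqabs, ← hbb, abs_of_pos (show (0:ℝ) < 2 by norm_num)]
    have e4 : 2 * ((C:ℝ) / 16777216) * b = 2 * (C:ℝ) * b / 16777216 := by ring
    rw [e4]
    linarith
  clear_value m n
  clear hm hn
  set w := nrm m n (m * m + n * n) with hw
  have hFw : ‖Fc‖ ≤ w := by
    rw [hw]
    apply nrm_sound
    have e3 : ‖Fc‖ ^ 2 = |Fc.re| ^ 2 + |Fc.im| ^ 2 := by
      rw [Complex.sq_norm, Complex.normSq_apply, sq_abs, sq_abs]; ring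
    rw [e3]
    push_cast
    have e4 : |Fc.re| ^ 2 ≤ (m:ℝ) ^ 2 := pow_le_pow_left₀ (abs_nonneg _) hmre 2
    have e5 : |Fc.im| ^ 2 ≤ (n:ℝ) ^ 2 := pow_le_pow_left₀ (abs_nonneg _) hnim 2
    linarith
  clear_value w
  clear hw
  have ht' : (t:ℝ) ≤ 16777216 := by exact_mod_cast ht
  have ht0 : (0:ℝ) ≤ t := Nat.cast_nonneg _
  set η := E - kk with hη
  set u := W - (z + ε * η) with hu
  have hEη : E = kk + η := by rw [hη]; ring
  have hWu : W = z + ε * η + u := by rw [hu]; ring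
  have hM : ‖ε * η‖ ≤ ((nE * t / 65536 : ℕ) : ℝ) + 1 := by
    rw [norm_mul]
    have e5 : ‖ε‖ ≤ nE / 65536 := by rw [le_div_iff₀ (by norm_num)]; exact hFG
    have e6 : ‖ε‖ * ‖η‖ ≤ nE / 65536 * t := mul_le_mul e5 hE (norm_nonneg _) (by positivity)
    push_cast at hMl
    have e7 : (nE:ℝ) / 65536 * t = nE * t / 65536 := by ring
    linarith
  have hRu : ‖ε * η + u‖ ≤ R := by
    refine (norm_add_le _ _).trans ?_
    rw [hRr]; linarith
  -- radius
  have hrr := div_lower (w * r + 25 * R + C * (R * R / 16777216 + 1)) 16777216 (by norm_num)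
  have hrr2 := div_lower (R * R) 16777216 (by norm_num)
  push_cast at hrr hrr2 ⊢
  have hdec : stp c E W - (pt A' B' + cf F' G' * η) =
      ((((c - q : ℝ) : ℂ) * (kk - z ^ 2 / 16777216) + ((c - q : ℝ) : ℂ) * η) +
      ((q:ℂ) * ((kk - z ^ 2 / 16777216) - z1) + ⟨θ1, θ2⟩)) +
      ((⟨φ1, φ2⟩ / 65536) * η + u * (Fc / 16777216)) +
      (-(2 * ((c - q : ℝ) : ℂ) * z * (ε * η + u) / 16777216) - (c:ℂ) * (ε * η + u) ^ 2 / 16777216) := by
    rw [hz', hε', hFc, hpd]
    unfold stp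
    rw [hWu, hEη]
    push_cast
    ring
  have hcn : |c| ≤ (C:ℝ) / 16777216 + 1 / 16777216 := by
    have : c = q + (c - q) := by ring
    rw [this]
    refine (abs_add_le _ _).trans ?_
    rw [hqabs]
    linarith
  have n1 : ‖((c - q : ℝ) : ℂ) * (kk - z ^ 2 / 16777216)‖ ≤ 27 := by
    rw [norm_mul, Complex.norm_real, Real.norm_eq_abs]
    calc |c - q| * ‖kk - z ^ 2 / 16777216‖ ≤ 1 / 16777216 * 442499072 :=
          mul_le_mul hcq hkz (norm_nonneg _) (by norm_num)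
      _ ≤ 27 := by norm_num
  have n1' : ‖((c - q : ℝ) : ℂ) * η‖ ≤ 1 := by
    rw [norm_mul, Complex.norm_real, Real.norm_eq_abs]
    calc |c - q| * ‖η‖ ≤ 1 / 16777216 * 16777216 :=
          mul_le_mul hcq (hE.trans ht') (norm_nonneg _) (by norm_num)
      _ = 1 := by norm_num
  have n4 : ‖(q:ℂ) * ((kk - z ^ 2 / 16777216) - z1)‖ ≤ 3 / 2 := by
    rw [norm_mul, Complex.norm_real, Real.norm_eq_abs]
    calc |q| * ‖(kk - z ^ 2 / 16777216) - z1‖ ≤ 1 * (3 / 2) :=
          mul_le_mul hq1 hcs' (norm_nonneg _) (by norm_num)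
      _ = 3 / 2 := by norm_num
  have n6 : ‖(⟨φ1, φ2⟩ / 65536) * η‖ ≤ (t:ℝ) * 3 / 131072 := by
    rw [norm_mul, norm_div]
    have e6 : ‖(65536 : ℂ)‖ = 65536 := by simp
    rw [e6]
    calc ‖(⟨φ1, φ2⟩ : ℂ)‖ / 65536 * ‖η‖ ≤ (3 / 2) / 65536 * t := by
          apply mul_le_mul _ hE (norm_nonneg _) (by norm_num)
          exact div_le_div_of_nonneg_right hφ (by norm_num)
      _ = _ := by ring
  have n2 : ‖u * (Fc / 16777216)‖ ≤ w * r / 16777216 := by
    rw [norm_mul, norm_div, h16]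
    calc ‖u‖ * (‖Fc‖ / 16777216) ≤ r * (w / 16777216) := by
          apply mul_le_mul hW _ (by positivity) hr0
          exact div_le_div_of_nonneg_right hFw (by norm_num)
      _ = _ := by ring
  have h2n : ‖(2:ℂ)‖ = 2 := by simp
  have n5 : ‖-(2 * ((c - q : ℝ) : ℂ) * z * (ε * η + u) / 16777216)‖ ≤ 11 * R / 16777216 := by
    rw [norm_neg, norm_div, norm_mul, norm_mul, norm_mul, h2n, h16, Complex.norm_real, Real.norm_eq_abs]
    apply div_le_div_of_nonneg_right _ (by norm_num)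
    apply mul_le_mul _ hRu (norm_nonneg _) (by norm_num)
    calc 2 * |c - q| * ‖z‖ ≤ 2 * (1 / 16777216) * 86000000 := by
          apply mul_le_mul _ hz4 (norm_nonneg _) (by norm_num)
          linarith
      _ ≤ 11 := by norm_num
  have n7 : ‖(c:ℂ) * (ε * η + u) ^ 2 / 16777216‖ ≤ (C:ℝ) * (R * R / 16777216) / 16777216 +
      13 * R / 16777216 := by
    rw [norm_div, norm_mul, norm_pow, h16, Complex.norm_real, Real.norm_eq_abs]
    have e5 : ‖ε * η + u‖ ^ 2 ≤ (R:ℝ) * R := by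
      rw [pow_two]; exact mul_le_mul hRu hRu (norm_nonneg _) hR0
    have e6 : |c| * ‖ε * η + u‖ ^ 2 ≤ ((C:ℝ) / 16777216 + 1 / 16777216) * (R * R) :=
      mul_le_mul hcn e5 (by positivity) (by positivity)
    have e7 : (R:ℝ) * R ≤ 218103808 * R := mul_le_mul_of_nonneg_right hR1 hR0
    have e8 : |c| * ‖ε * η + u‖ ^ 2 / 16777216 ≤ ((C:ℝ) / 16777216 + 1 / 16777216) * (R * R) / 16777216 :=
      div_le_div_of_nonneg_right e6 (by norm_num)
    refine e8.trans ?_
    have e9 : ((C:ℝ) / 16777216 + 1 / 16777216) * (R * R) / 16777216 =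
      (C:ℝ) * (R * R / 16777216) / 16777216 + (R * R / 16777216) / 16777216 := by ring
    rw [e9]
    have e10 : (R * R / 16777216 : ℝ) / 16777216 ≤ 13 * R / 16777216 := by
      apply div_le_div_of_nonneg_right _ (by norm_num)
      rw [div_le_iff₀ (by norm_num)]
      linarith
    linarith
  rw [hdec]
  refine (norm_add₃_le).trans ?_
  have m1 := norm_add_le (((c - q : ℝ) : ℂ) * (kk - z ^ 2 / 16777216) + ((c - q : ℝ) : ℂ) * η)
    ((q:ℂ) * ((kk - z ^ 2 / 16777216) - z1) + ⟨θ1, θ2⟩)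
  have m2 := norm_add_le (((c - q : ℝ) : ℂ) * (kk - z ^ 2 / 16777216)) (((c - q : ℝ) : ℂ) * η)
  have m3 := norm_add_le ((q:ℂ) * ((kk - z ^ 2 / 16777216) - z1)) (⟨θ1, θ2⟩ : ℂ)
  have m4 := norm_add_le ((⟨φ1, φ2⟩ / 65536) * η) (u * (Fc / 16777216))
  have m5 := norm_sub_le (-(2 * ((c - q : ℝ) : ℂ) * z * (ε * η + u) / 16777216))
    ((c:ℂ) * (ε * η + u) ^ 2 / 16777216)
  have hfin : w * r / 16777216 + ((C:ℝ) * (R * R / 16777216) / 16777216 + 13 * R / 16777216) +
      11 * R / 16777216 ≤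
      (w * r + 25 * R + (C : ℝ) * (((R * R / 16777216 : ℕ) : ℝ) + 1)) / 16777216 := by
    have e3 : (C : ℝ) * (R * R / 16777216) ≤ (C : ℝ) * (((R * R / 16777216 : ℕ) : ℝ) + 1) := by
      apply mul_le_mul_of_nonneg_left _ hC0
      linarith
    have e4 : w * r / 16777216 + ((C:ℝ) * (R * R / 16777216) / 16777216 + 13 * R / 16777216) +
      11 * R / 16777216 = (w * r + 24 * R + C * (R * R / 16777216)) / 16777216 := by ring
    rw [e4]
    apply div_le_div_of_nonneg_right _ (by norm_num)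
    linarith
  linarith

end Pool.Agent.W_4481e3_q42.Ev
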