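import Pool.Agent.W_4481e3_q42.Glue

/-!
The table of the rows and the final assembly for `L = 2`.

Row: left end, second order constants at the phases 1, 2, 3, 0 (bases 2/15, 4/15, 8/15, 1/15), slope
bounds at these phases, `h` (window `16 h` at the phase 1, `2 h`, `4 h`, `8 h` at the others).
-/

namespace Pool.Agent.W_4481e3_q42.Glue

open Pool.Agent.W_4481e3_q42 Pool.Agent.W_4481e3_q46

/-- a row -/
noncomputable def mkR (lo c1 c2 c3 c0 b1 b2 b3 b0 h : ℝ) : Row where
  lo := lo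
  kap := fun p => if p = 1 then c1 else if p = 2 then c2 else if p = 3 then c3 else c0
  tau := fun p => if p = 1 then 16 * h else if p = 2 then 2 * h else if p = 3 then 4 * h else 8 * h
  beta := fun p => if p = 1 then b1 else if p = 2 then b2 else if p = 3 then b3 else b0

noncomputable def R1 : Row := mkR (2) 618 627 672 632 (2341483 / 819200) (55 / 2) (19) (87 / 4) (1 / 512)
noncomputable def R2 : Row := mkR (23183 / 8192) 677 698 726 684 (101 / 25) (59 / 2) (20) (47 / 2) (1 / 512)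
noncomputable def R3 : Row := mkR (4) 678 725 770 711 (9366033 / 1638400) (129 / 4) (43 / 2) (51 / 2) (1 / 1024)
noncomputable def R4 : Row := mkR (92733 / 16384) 777 854 875 809 (202 / 25) (36) (93 / 4) (57 / 2) (1 / 1024)
noncomputable def R5 : Row := mkR (8) 942 1066 1028 955 (18699039 / 1638400) (83 / 2) (51 / 2) (32) (1 / 1024)
noncomputable def R6 : Row := mkR (185139 / 16384) 1205 1404 1257 1178 (404 / 25) (197 / 4) (113 / 4) (73 / 2) (1 / 1024)
noncomputable def R7 : Row := mkR (16) 1522 1851 1553 1449 (18699039 / 819200) (241 / 4) (32) (85 / 2) (1 / 2048)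
noncomputable def R8 : Row := mkR (185139 / 8192) 2260 2800 2070 1958 (808 / 25) (303 / 4) (73 / 2) (201 / 4) (1 / 2048)
noncomputable def R9 : Row := mkR (32) 3470 4380 2860 2820 (14992339 / 327680) (391 / 4) (85 / 2) (121 / 2) (1 / 2048)
noncomputable def R10 : Row := mkR (742195 / 16384) 5520 7120 4120 4220 (1616 / 25) (515 / 4) (201 / 4) (295 / 4) (1 / 2048)
noncomputable def R11 : Row := mkR (64) 8260 11230 5970 6230 (18281 / 200) (345 / 2) (125 / 2) (181 / 2) (1 / 4096)
noncomputable def R12 : Row := mkR (181 / 2) 13880 19450 9300 10020 (3232 / 25) (469 / 2) (321 / 4) (451 / 4) (1 / 4096)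
noncomputable def R13 : Row := mkR (128) 22120 32900 14610 15670 (18281 / 100) (1289 / 4) (211 / 2) (146) (1 / 8192)
noncomputable def R14 : Row := mkR (181) 39820 60580 24530 26180 (6464 / 25) (893 / 2) (563 / 4) (196) (1 / 8192)
noncomputable def R15 : Row := mkR (256) 71550 111770 41830 46490 (18281 / 50) (2487 / 4) (383 / 2) (269) (1 / 16384)
noncomputable def R16 : Row := mkR (362) 138790 217160 75320 87260 (12928 / 25) (870) (1051 / 4) (1491 / 4) (1 / 16384)
noncomputable def R17 : Row := mkR (512) 273260 427330 140800 167870 (18281 / 25) (4883 / 4) (725 / 2) (2061 / 4) (1 / 16384)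
noncomputable def R18 : Row := mkR (724) 406160 634450 205520 246400 (22321 / 25) (5943 / 4) (875 / 2) (623) (1 / 16384)

/-- the table after its first row -/
noncomputable def rs : List Row := [R2, R3, R4, R5, R6, R7, R8, R9, R10, R11, R12, R13, R14, R15, R16, R17, R18]

lemma rle_mk {lo c1 c2 c3 c0 b1 b2 b3 b0 h lo' c1' c2' c3' c0' b1' b2' b3' b0' h' : ℝ} (e1 : c1 ≤ c1')
    (e2 : c2 ≤ c2') (e3 : c3 ≤ c3') (e0 : c0 ≤ c0') (f1 : b1 ≤ b1') (f2 : b2 ≤ b2') (f3 : b3 ≤ b3')
    (f0 : b0 ≤ b0') (eh : h' ≤ h) :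
    RLe (mkR lo c1 c2 c3 c0 b1 b2 b3 b0 h) (mkR lo' c1' c2' c3' c0' b1' b2' b3' b0' h') := by
  intro p hp
  unfold mkR
  dsimp only
  have hp' : p = 0 ∨ p = 1 ∨ p = 2 ∨ p = 3 := by omega
  rcases hp' with rfl | rfl | rfl | rfl
  · refine ⟨?_, ?_, ?_⟩ <;> norm_num <;> linarith
  · refine ⟨?_, ?_, ?_⟩ <;> norm_num <;> linarith
  · refine ⟨?_, ?_, ?_⟩ <;> norm_num <;> linarith
  · refine ⟨?_, ?_, ?_⟩ <;> norm_num <;> linarith

lemma le1 : RLe R1 R2 := by
  unfold R1 R2
  apply rle_mk <;> norm_num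
lemma le2 : RLe R2 R3 := by
  unfold R2 R3
  apply rle_mk <;> norm_num
lemma le3 : RLe R3 R4 := by
  unfold R3 R4
  apply rle_mk <;> norm_num
lemma le4 : RLe R4 R5 := by
  unfold R4 R5
  apply rle_mk <;> norm_num
lemma le5 : RLe R5 R6 := by
  unfold R5 R6
  apply rle_mk <;> norm_num
lemma le6 : RLe R6 R7 := by
  unfold R6 R7
  apply rle_mk <;> norm_num
lemma le7 : RLe R7 R8 := by
  unfold R7 R8
  apply rle_mk <;> norm_num
lemma le8 : RLe R8 R9 := by
  unfold R8 R9
  apply rle_mk <;> norm_num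
lemma le9 : RLe R9 R10 := by
  unfold R9 R10
  apply rle_mk <;> norm_num
lemma le10 : RLe R10 R11 := by
  unfold R10 R11
  apply rle_mk <;> norm_num
lemma le11 : RLe R11 R12 := by
  unfold R11 R12
  apply rle_mk <;> norm_num
lemma le12 : RLe R12 R13 := by
  unfold R12 R13
  apply rle_mk <;> norm_num
lemma le13 : RLe R13 R14 := by
  unfold R13 R14
  apply rle_mk <;> norm_num
lemma le14 : RLe R14 R15 := by
  unfold R14 R15
  apply rle_mk <;> norm_num
lemma le15 : RLe R15 R16 := by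
  unfold R15 R16
  apply rle_mk <;> norm_num
lemma le16 : RLe R16 R17 := by
  unfold R16 R17
  apply rle_mk <;> norm_num
lemma le17 : RLe R17 R18 := by
  unfold R17 R18
  apply rle_mk <;> norm_num

lemma mono_rs : Mono R1 rs := ⟨le1, le2, le3, le4, le5, le6, le7, le8, le9, le10, le11, le12, le13, le14, le15, le16, le17, trivial⟩

lemma pos_mk {lo c1 c2 c3 c0 b1 b2 b3 b0 h : ℝ} (h1 : 0 < c1) (h2 : 0 < h) :
    0 < (mkR lo c1 c2 c3 c0 b1 b2 b3 b0 h).kap 1 ∧ 0 < (mkR lo c1 c2 c3 c0 b1 b2 b3 b0 h).tau 1 := by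
  unfold mkR
  dsimp only
  constructor
  · rw [if_pos rfl]; exact h1
  · rw [if_pos rfl]; linarith

lemma pos1 : 0 < R1.kap 1 ∧ 0 < R1.tau 1 := by
  unfold R1
  apply pos_mk <;> norm_num
lemma pos2 : 0 < R2.kap 1 ∧ 0 < R2.tau 1 := by
  unfold R2
  apply pos_mk <;> norm_num
lemma pos3 : 0 < R3.kap 1 ∧ 0 < R3.tau 1 := by
  unfold R3
  apply pos_mk <;> norm_num
lemma pos4 : 0 < R4.kap 1 ∧ 0 < R4.tau 1 := by
  unfold R4
  apply pos_mk <;> norm_num
lemma pos5 : 0 < R5.kap 1 ∧ 0 < R5.tau 1 := by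
  unfold R5
  apply pos_mk <;> norm_num
lemma pos6 : 0 < R6.kap 1 ∧ 0 < R6.tau 1 := by
  unfold R6
  apply pos_mk <;> norm_num
lemma pos7 : 0 < R7.kap 1 ∧ 0 < R7.tau 1 := by
  unfold R7
  apply pos_mk <;> norm_num
lemma pos8 : 0 < R8.kap 1 ∧ 0 < R8.tau 1 := by
  unfold R8
  apply pos_mk <;> norm_num
lemma pos9 : 0 < R9.kap 1 ∧ 0 < R9.tau 1 := by
  unfold R9
  apply pos_mk <;> norm_num
lemma pos10 : 0 < R10.kap 1 ∧ 0 < R10.tau 1 := by
  unfold R10
  apply pos_mk <;> norm_num
lemma pos11 : 0 < R11.kap 1 ∧ 0 < R11.tau 1 := by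
  unfold R11
  apply pos_mk <;> norm_num
lemma pos12 : 0 < R12.kap 1 ∧ 0 < R12.tau 1 := by
  unfold R12
  apply pos_mk <;> norm_num
lemma pos13 : 0 < R13.kap 1 ∧ 0 < R13.tau 1 := by
  unfold R13
  apply pos_mk <;> norm_num
lemma pos14 : 0 < R14.kap 1 ∧ 0 < R14.tau 1 := by
  unfold R14
  apply pos_mk <;> norm_num
lemma pos15 : 0 < R15.kap 1 ∧ 0 < R15.tau 1 := by
  unfold R15
  apply pos_mk <;> norm_num
lemma pos16 : 0 < R16.kap 1 ∧ 0 < R16.tau 1 := by
  unfold R16
  apply pos_mk <;> norm_num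
lemma pos17 : 0 < R17.kap 1 ∧ 0 < R17.tau 1 := by
  unfold R17
  apply pos_mk <;> norm_num
lemma pos18 : 0 < R18.kap 1 ∧ 0 < R18.tau 1 := by
  unfold R18
  apply pos_mk <;> norm_num

lemma pos_rs : EachRow (fun r => 0 < r.kap 1 ∧ 0 < r.tau 1) R1 rs := by
  refine ⟨pos1, ?_⟩
  intro r hr
  unfold rs at hr
  simp only [List.mem_cons, List.not_mem_nil, or_false] at hr
  rcases hr with rfl | rfl | rfl | rfl | rfl | rfl | rfl | rfl | rfl | rfl | rfl | rfl | rfl | rfl | rfl | rfl | rfl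
  · exact pos2
  · exact pos3
  · exact pos4
  · exact pos5
  · exact pos6
  · exact pos7
  · exact pos8
  · exact pos9
  · exact pos10
  · exact pos11
  · exact pos12
  · exact pos13
  · exact pos14
  · exact pos15
  · exact pos16
  · exact pos17
  · exact pos18

/-- the nine octaves on a square -/
def Sq9 (X Y H : ℕ) : Prop :=
  RootO X Y H 9888 10832 536870912 32768 46366 65536 ∧
  RootO X Y H 10848 12432 268435456 65536 92733 131072 ∧
  RootO X Y H 15072 19280 268435456 131072 185139 262144 ∧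
  RootO X Y H 24352 36160 134217728 262144 370278 524288 ∧
  RootO X Y H 55520 88320 134217728 524288 742195 1048576 ∧
  RootO X Y H 132160 222080 67108864 1048576 1482752 2097152 ∧
  RootO X Y H 353920 637120 33554432 2097152 2965504 4194304 ∧
  RootO X Y H 1144800 2220640 16777216 4194304 5931008 8388608 ∧
  RootO X Y H 4372160 6498560 16777216 8388608 11862016 14483456

lemma kap_mk {lo c1 c2 c3 c0 b1 b2 b3 b0 h : ℝ} : (mkR lo c1 c2 c3 c0 b1 b2 b3 b0 h).kap 1 = c1 := by
  unfold mkR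
  dsimp only
  rw [if_pos rfl]
lemma tau_mk {lo c1 c2 c3 c0 b1 b2 b3 b0 h : ℝ} : (mkR lo c1 c2 c3 c0 b1 b2 b3 b0 h).tau 1 = 16 * h := by
  unfold mkR
  dsimp only
  rw [if_pos rfl]
lemma lo_mk {lo c1 c2 c3 c0 b1 b2 b3 b0 h : ℝ} : (mkR lo c1 c2 c3 c0 b1 b2 b3 b0 h).lo = lo := rfl

/-- the rows are killed on the square -/
theorem sq_kill {X Y H : ℕ} (hS : Sq9 X Y H) : SqKillQ 0 4 884 R1 rs X Y H := by
  intro ε hP hE
  obtain ⟨h1, h2, h3, h4, h5, h6, h7, h8, h9⟩ := hS
  have k1 : RowKillQ ε 0 4 R1 R1.lo R2.lo := by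
    refine rowKill_of_no (K := 9888) (TAU := 536870912) (A1 := 32768) (A2 := 46366) hP (fun w a hs => h1.lower (by norm_num) hs hE) ?_ ?_ ?_ ?_
    · unfold R1; rw [kap_mk]; norm_num
    · unfold R1; rw [tau_mk]; norm_num
    · unfold R1; rw [lo_mk]; norm_num
    · unfold R2; rw [lo_mk]; norm_num
  have k2 : RowKillQ ε 0 4 R2 R2.lo R3.lo := by
    refine rowKill_of_no (K := 10832) (TAU := 536870912) (A1 := 46366) (A2 := 65536) hP (fun w a hs => h1.upper hs hE) ?_ ?_ ?_ ?_
    · unfold R2; rw [kap_mk]; norm_num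
    · unfold R2; rw [tau_mk]; norm_num
    · unfold R2; rw [lo_mk]; norm_num
    · unfold R3; rw [lo_mk]; norm_num
  have k3 : RowKillQ ε 0 4 R3 R3.lo R4.lo := by
    refine rowKill_of_no (K := 10848) (TAU := 268435456) (A1 := 65536) (A2 := 92733) hP (fun w a hs => h2.lower (by norm_num) hs hE) ?_ ?_ ?_ ?_
    · unfold R3; rw [kap_mk]; norm_num
    · unfold R3; rw [tau_mk]; norm_num
    · unfold R3; rw [lo_mk]; norm_num
    · unfold R4; rw [lo_mk]; norm_num
  have k4 : RowKillQ ε 0 4 R4 R4.lo R5.lo := by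
    refine rowKill_of_no (K := 12432) (TAU := 268435456) (A1 := 92733) (A2 := 131072) hP (fun w a hs => h2.upper hs hE) ?_ ?_ ?_ ?_
    · unfold R4; rw [kap_mk]; norm_num
    · unfold R4; rw [tau_mk]; norm_num
    · unfold R4; rw [lo_mk]; norm_num
    · unfold R5; rw [lo_mk]; norm_num
  have k5 : RowKillQ ε 0 4 R5 R5.lo R6.lo := by
    refine rowKill_of_no (K := 15072) (TAU := 268435456) (A1 := 131072) (A2 := 185139) hP (fun w a hs => h3.lower (by norm_num) hs hE) ?_ ?_ ?_ ?_
    · unfold R5; rw [kap_mk]; norm_num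
    · unfold R5; rw [tau_mk]; norm_num
    · unfold R5; rw [lo_mk]; norm_num
    · unfold R6; rw [lo_mk]; norm_num
  have k6 : RowKillQ ε 0 4 R6 R6.lo R7.lo := by
    refine rowKill_of_no (K := 19280) (TAU := 268435456) (A1 := 185139) (A2 := 262144) hP (fun w a hs => h3.upper hs hE) ?_ ?_ ?_ ?_
    · unfold R6; rw [kap_mk]; norm_num
    · unfold R6; rw [tau_mk]; norm_num
    · unfold R6; rw [lo_mk]; norm_num
    · unfold R7; rw [lo_mk]; norm_num
  have k7 : RowKillQ ε 0 4 R7 R7.lo R8.lo := by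
    refine rowKill_of_no (K := 24352) (TAU := 134217728) (A1 := 262144) (A2 := 370278) hP (fun w a hs => h4.lower (by norm_num) hs hE) ?_ ?_ ?_ ?_
    · unfold R7; rw [kap_mk]; norm_num
    · unfold R7; rw [tau_mk]; norm_num
    · unfold R7; rw [lo_mk]; norm_num
    · unfold R8; rw [lo_mk]; norm_num
  have k8 : RowKillQ ε 0 4 R8 R8.lo R9.lo := by
    refine rowKill_of_no (K := 36160) (TAU := 134217728) (A1 := 370278) (A2 := 524288) hP (fun w a hs => h4.upper hs hE) ?_ ?_ ?_ ?_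
    · unfold R8; rw [kap_mk]; norm_num
    · unfold R8; rw [tau_mk]; norm_num
    · unfold R8; rw [lo_mk]; norm_num
    · unfold R9; rw [lo_mk]; norm_num
  have k9 : RowKillQ ε 0 4 R9 R9.lo R10.lo := by
    refine rowKill_of_no (K := 55520) (TAU := 134217728) (A1 := 524288) (A2 := 742195) hP (fun w a hs => h5.lower (by norm_num) hs hE) ?_ ?_ ?_ ?_
    · unfold R9; rw [kap_mk]; norm_num
    · unfold R9; rw [tau_mk]; norm_num
    · unfold R9; rw [lo_mk]; norm_num
    · unfold R10; rw [lo_mk]; norm_num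
  have k10 : RowKillQ ε 0 4 R10 R10.lo R11.lo := by
    refine rowKill_of_no (K := 88320) (TAU := 134217728) (A1 := 742195) (A2 := 1048576) hP (fun w a hs => h5.upper hs hE) ?_ ?_ ?_ ?_
    · unfold R10; rw [kap_mk]; norm_num
    · unfold R10; rw [tau_mk]; norm_num
    · unfold R10; rw [lo_mk]; norm_num
    · unfold R11; rw [lo_mk]; norm_num
  have k11 : RowKillQ ε 0 4 R11 R11.lo R12.lo := by
    refine rowKill_of_no (K := 132160) (TAU := 67108864) (A1 := 1048576) (A2 := 1482752) hP (fun w a hs => h6.lower (by norm_num) hs hE) ?_ ?_ ?_ ?_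
    · unfold R11; rw [kap_mk]; norm_num
    · unfold R11; rw [tau_mk]; norm_num
    · unfold R11; rw [lo_mk]; norm_num
    · unfold R12; rw [lo_mk]; norm_num
  have k12 : RowKillQ ε 0 4 R12 R12.lo R13.lo := by
    refine rowKill_of_no (K := 222080) (TAU := 67108864) (A1 := 1482752) (A2 := 2097152) hP (fun w a hs => h6.upper hs hE) ?_ ?_ ?_ ?_
    · unfold R12; rw [kap_mk]; norm_num
    · unfold R12; rw [tau_mk]; norm_num
    · unfold R12; rw [lo_mk]; norm_num
    · unfold R13; rw [lo_mk]; norm_num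
  have k13 : RowKillQ ε 0 4 R13 R13.lo R14.lo := by
    refine rowKill_of_no (K := 353920) (TAU := 33554432) (A1 := 2097152) (A2 := 2965504) hP (fun w a hs => h7.lower (by norm_num) hs hE) ?_ ?_ ?_ ?_
    · unfold R13; rw [kap_mk]; norm_num
    · unfold R13; rw [tau_mk]; norm_num
    · unfold R13; rw [lo_mk]; norm_num
    · unfold R14; rw [lo_mk]; norm_num
  have k14 : RowKillQ ε 0 4 R14 R14.lo R15.lo := by
    refine rowKill_of_no (K := 637120) (TAU := 33554432) (A1 := 2965504) (A2 := 4194304) hP (fun w a hs => h7.upper hs hE) ?_ ?_ ?_ ?_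
    · unfold R14; rw [kap_mk]; norm_num
    · unfold R14; rw [tau_mk]; norm_num
    · unfold R14; rw [lo_mk]; norm_num
    · unfold R15; rw [lo_mk]; norm_num
  have k15 : RowKillQ ε 0 4 R15 R15.lo R16.lo := by
    refine rowKill_of_no (K := 1144800) (TAU := 16777216) (A1 := 4194304) (A2 := 5931008) hP (fun w a hs => h8.lower (by norm_num) hs hE) ?_ ?_ ?_ ?_
    · unfold R15; rw [kap_mk]; norm_num
    · unfold R15; rw [tau_mk]; norm_num
    · unfold R15; rw [lo_mk]; norm_num
    · unfold R16; rw [lo_mk]; norm_num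
  have k16 : RowKillQ ε 0 4 R16 R16.lo R17.lo := by
    refine rowKill_of_no (K := 2220640) (TAU := 16777216) (A1 := 5931008) (A2 := 8388608) hP (fun w a hs => h8.upper hs hE) ?_ ?_ ?_ ?_
    · unfold R16; rw [kap_mk]; norm_num
    · unfold R16; rw [tau_mk]; norm_num
    · unfold R16; rw [lo_mk]; norm_num
    · unfold R17; rw [lo_mk]; norm_num
  have k17 : RowKillQ ε 0 4 R17 R17.lo R18.lo := by
    refine rowKill_of_no (K := 4372160) (TAU := 16777216) (A1 := 8388608) (A2 := 11862016) hP (fun w a hs => h9.lower (by norm_num) hs hE) ?_ ?_ ?_ ?_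
    · unfold R17; rw [kap_mk]; norm_num
    · unfold R17; rw [tau_mk]; norm_num
    · unfold R17; rw [lo_mk]; norm_num
    · unfold R18; rw [lo_mk]; norm_num
  have k18 : RowKillQ ε 0 4 R18 R18.lo 884 := by
    refine rowKill_of_no (K := 6498560) (TAU := 16777216) (A1 := 11862016) (A2 := 14483456) hP (fun w a hs => h9.upper hs hE) ?_ ?_ ?_ ?_
    · unfold R18; rw [kap_mk]; norm_num
    · unfold R18; rw [tau_mk]; norm_num
    · unfold R18; rw [lo_mk]; norm_num
    · norm_num
  exact ⟨k1, k2, k3, k4, k5, k6, k7, k8, k9, k10, k11, k12, k13, k14, k15, k16, k17, k18⟩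

/-- the fifteen squares of the quadtree of depth two which meet the region -/
def sqs : List (ℕ × ℕ × ℕ) :=
  [(524288, 524288, 524288),
   (524288, 1572864, 524288),
   (524288, 2621440, 524288),
   (524288, 3670016, 524288),
   (1572864, 524288, 524288),
   (1572864, 1572864, 524288),
   (1572864, 2621440, 524288),
   (1572864, 3670016, 524288),
   (2621440, 524288, 524288),
   (2621440, 1572864, 524288),
   (2621440, 2621440, 524288),
   (2621440, 3670016, 524288),
   (3670016, 524288, 524288),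
   (3670016, 1572864, 524288),
   (3670016, 2621440, 524288)]

lemma cov_sqs : cov sqs 2 2097152 2097152 2097152 = true := by decide +kernel

/-- **Final assembly for `L = 2`.** -/
theorem noFam2_of_data (hhi : HiStmt 875) (hlo : LoStmt 2)
    (hper : ∀ ε : ℂ, Par ε → AllRows (RowPer ε) 884 R1 rs)
    (hsq : ∀ s ∈ sqs, Sq9 s.1 s.2.1 s.2.2) : Pool.Agent.W_MP_4481e3_an.NoFam2 := by
  have e : R1.lo = 2 := by unfold R1; rw [lo_mk]
  exact noFam2_of_squaresQ (Ahi := 875) (top := 884) (m := 0) (N := 4) (d := R1) (rs := rs)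
    (by rw [e]; norm_num) mono_rs pos_rs (by unfold Lam; norm_num) (by norm_num) hhi
    (by rw [e]; exact hlo) hper (L := sqs) (n := 2) (X := 2097152) (Y := 2097152) (H := 2097152)
    le_rfl le_rfl (by norm_num) (by norm_num) cov_sqs fun s hs => sq_kill (hsq s hs)

end Pool.Agent.W_4481e3_q42.Glue
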