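import Pool.Agent.W_4481e3_q42.Close

/-!
Balls of dead points over the bases `0` and `1/3`.
-/

open Filter Topology

namespace Pool.Agent.W_4481e3_q42

variable {ε : ℂ} {x : ℝ} {Z : ℂ}

/-- the gradient form of the Apollonius condition on a ball `|Z - C| ≤ ρ` -/
theorem apol_cond {a b C D ρ G P Q n2 : ℝ} (ha : 0 ≤ a) (hn : n2 = a ^ 2 + b ^ 2)
    (hG : ((a ^ 2 + n2 ^ 2) * a - 2 * n2 * a * C) ^ 2 + ((a ^ 2 + n2 ^ 2) * b - 2 * n2 * a * D) ^ 2 ≤ G ^ 2)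
    (hG0 : 0 ≤ G) (hρ : 0 ≤ ρ)
    (h : ρ * G < (a ^ 2 + n2 ^ 2) * (a * C + b * D) - n2 * a * (C ^ 2 + D ^ 2 + ρ ^ 2 + n2))
    (hZ : (P - C) ^ 2 + (Q - D) ^ 2 ≤ ρ ^ 2) :
    n2 * a * (P ^ 2 + Q ^ 2 + n2) < (a ^ 2 + n2 ^ 2) * (a * P + b * Q) := by
  have hn0 : 0 ≤ n2 := by rw [hn]; positivity
  set g1 := (a ^ 2 + n2 ^ 2) * a - 2 * n2 * a * C with hg1
  set g2 := (a ^ 2 + n2 ^ 2) * b - 2 * n2 * a * D with hg2
  set p := P - C with hp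
  set q := Q - D with hq
  have h1 : (g1 * p + g2 * q) ^ 2 ≤ (ρ * G) ^ 2 := by
    calc (g1 * p + g2 * q) ^ 2 ≤ (g1 ^ 2 + g2 ^ 2) * (p ^ 2 + q ^ 2) := cs_aux _ _ _ _
      _ ≤ G ^ 2 * ρ ^ 2 := by gcongr
      _ = _ := by ring
  have h2 : -(ρ * G) ≤ g1 * p + g2 * q := (abs_le.1 (abs_le_of_sq_le_sq h1 (by positivity))).1
  have h3 : n2 * a * (p ^ 2 + q ^ 2) ≤ n2 * a * ρ ^ 2 := by gcongr
  have e1 : (a ^ 2 + n2 ^ 2) * (a * P + b * Q) - n2 * a * (P ^ 2 + Q ^ 2 + n2) =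
      ((a ^ 2 + n2 ^ 2) * (a * C + b * D) - n2 * a * (C ^ 2 + D ^ 2 + ρ ^ 2 + n2)) +
        (g1 * p + g2 * q) + (n2 * a * ρ ^ 2 - n2 * a * (p ^ 2 + q ^ 2)) := by
    rw [hg1, hg2, hp, hq]; ring
  linarith

/-- a dead ball over the base `0` from the Apollonius trap -/
theorem dead_apol0 (hε : Adm ε) {n : ℤ} (hx : x = n) {C : ℂ} {ρ G n2 : ℝ}
    (hn : n2 = ε.re ^ 2 + ε.im ^ 2)
    (hG : ((ε.re ^ 2 + n2 ^ 2) * ε.re - 2 * n2 * ε.re * C.re) ^ 2 +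
      ((ε.re ^ 2 + n2 ^ 2) * ε.im - 2 * n2 * ε.re * C.im) ^ 2 ≤ G ^ 2) (hG0 : 0 ≤ G)
    (h : ρ * G < (ε.re ^ 2 + n2 ^ 2) * (ε.re * C.re + ε.im * C.im) -
      n2 * ε.re * (C.re ^ 2 + C.im ^ 2 + ρ ^ 2 + n2)) : Dead ε x C ρ := by
  intro Z hZ
  have hρ : 0 ≤ ρ := (norm_nonneg _).trans hZ
  refine not_alive_apol0 hε hx ?_
  rw [← hn]
  refine apol_cond (ρ := ρ) (G := G) hε.re.le hn hG hG0 hρ h ?_
  have h1 : ‖Z - C‖ ^ 2 ≤ ρ ^ 2 := by gcongr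
  rw [Complex.sq_norm, Complex.normSq_apply, Complex.sub_re, Complex.sub_im] at h1
  linarith

/-- a dead ball over the base `1/3` from the Apollonius trap, `C = -2 K`, radius `2 ρ`,
`η = ε / 2` -/
theorem dead_apol3 (hε : Adm ε) {q : ℤ} (hx : 3 * x = q) (hq : ¬ (3 ∣ q)) {K η : ℂ} {ρ G n2 : ℝ}
    (hη : η = ε / 2) (hn : n2 = η.re ^ 2 + η.im ^ 2)
    (hG : ((η.re ^ 2 + n2 ^ 2) * η.re - 2 * n2 * η.re * K.re) ^ 2 +
      ((η.re ^ 2 + n2 ^ 2) * η.im - 2 * n2 * η.re * K.im) ^ 2 ≤ G ^ 2) (hG0 : 0 ≤ G)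
    (h : ρ * G < (η.re ^ 2 + n2 ^ 2) * (η.re * K.re + η.im * K.im) -
      n2 * η.re * (K.re ^ 2 + K.im ^ 2 + ρ ^ 2 + n2)) : Dead ε x (-2 * K) (2 * ρ) := by
  intro Z hZ
  have h0 := hε.half
  rw [← hη] at h0
  have hU : ‖-Z / 2 - K‖ ≤ ρ := by
    have e1 : -Z / 2 - K = -((Z - -2 * K) / 2) := by ring
    rw [e1, norm_neg, norm_div, Complex.norm_ofNat]; linarith
  have hρ : 0 ≤ ρ := (norm_nonneg _).trans hU
  refine not_alive_apol3 hε hx hq (U := -Z / 2) rfl hη ?_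
  rw [← hn]
  refine apol_cond (ρ := ρ) (G := G) h0.re.le hn hG hG0 hρ h ?_
  have h1 : ‖-Z / 2 - K‖ ^ 2 ≤ ρ ^ 2 := by gcongr
  rw [Complex.sq_norm, Complex.normSq_apply, Complex.sub_re, Complex.sub_im] at h1
  linarith

/-- the disc trap over the base `0` as a dead ball -/
theorem dead_disc0 (hε : Adm ε) {n : ℤ} (hx : x = n) {r : ℝ} (hr : r ^ 2 + ‖1 / 4 - ε ^ 2‖ < r) :
    Dead ε x (1 / 2) r := fun _ hZ => not_alive_disc0 hε hx hr hZ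

/-- the disc trap over the base `1/3` as a dead ball -/
theorem dead_disc3 (hε : Adm ε) {q : ℤ} (hx : 3 * x = q) (hq : ¬ (3 ∣ q)) {r : ℝ}
    (hr : r ^ 2 + ‖1 / 4 - ε ^ 2 / 4‖ < r) : Dead ε x (-1) (2 * r) := fun Z hZ =>
  not_alive_disc3 hε hx hq hr (by rwa [sub_neg_eq_add] at hZ)

/-- escape over the base `0` for a ball -/
theorem dead_esc0 {n : ℤ} (hx : x = n) {R : ℝ} (hR : R + ‖1 / 4 - ε ^ 2‖ < R ^ 2) (hR0 : 1 / 2 ≤ R)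
    {v : ℂ} {r : ℝ} (h : R + r ≤ ‖v - 1 / 2‖) : Dead ε x v r := fun Z hZ =>
  not_alive_esc0 hx hR hR0 (by
    have e1 : v - 1 / 2 = (Z - 1 / 2) - (Z - v) := by ring
    rw [e1] at h
    linarith [norm_sub_le (Z - 1 / 2) (Z - v)])

/-- escape over the base `1/3` for a ball -/
theorem dead_esc3 {q : ℤ} (hx : 3 * x = q) (hq : ¬ (3 ∣ q)) {R : ℝ} (hR : R + ‖1 / 4 - ε ^ 2 / 4‖ < R ^ 2)
    (hR0 : 1 / 2 ≤ R) {v : ℂ} {r : ℝ} (h : 2 * R + r ≤ ‖v + 1‖) : Dead ε x v r := fun Z hZ =>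
  not_alive_esc3 hx hq hR hR0 (by
    have e1 : v + 1 = (Z + 1) - (Z - v) := by ring
    rw [e1] at h
    linarith [norm_sub_le (Z + 1) (Z - v)])

/-- near disc for a ball -/
theorem dead_disc {c : ℝ} (hc : Real.cos (2 * Real.pi * x) = c) (h1 : |c| ≤ 977 / 10000) {v : ℂ} {r : ℝ}
    (h : 1 / 2 + |c| * r ≤ |c| * ‖v‖) : Dead ε x v r := fun Z hZ =>
  not_alive_disc hc h1 (by
    have e1 : v = Z - (Z - v) := by ring
    have h2 : ‖v‖ ≤ ‖Z‖ + r := by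
      conv_lhs => rw [e1]
      linarith [norm_sub_le Z (Z - v)]
    have h3 : |c| * ‖v‖ ≤ |c| * (‖Z‖ + r) := by gcongr
    linarith)

/-- near half plane for a ball, `c ≤ 0` -/
theorem dead_half {c : ℝ} (hc : Real.cos (2 * Real.pi * x) = c) (hc0 : c ≤ 0) (n : ℤ)
    (h1 : 1 / 4 ≤ x - n) (h2 : x - n ≤ 4 / 15) {v : ℂ} {r : ℝ} (h : 1 ≤ 2 * c * (v.re + r)) :
    Dead ε x v r := fun Z hZ =>
  not_alive_half hc n h1 h2 (by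
    have h3 : (Z - v).re ≤ r := (Complex.re_le_norm _).trans hZ
    rw [Complex.sub_re] at h3
    have h4 : 2 * c * (v.re + r) ≤ 2 * c * Z.re :=
      mul_le_mul_of_nonpos_left (by linarith) (by linarith)
    linarith)

/-- `ε` from `e = ε ^ 2`: if `|ε ^ 2 - ec ^ 2| ≤ δ`, `Re ec ≥ 0`, and `l ≤ |ec|`, then
`|ε - ec| ≤ δ / (l + l')` -/
theorem eps_near {ec : ℂ} {δ l : ℝ} (h : ‖ε ^ 2 - ec ^ 2‖ ≤ δ) (hl : 0 < l)
    (hre : l ≤ ε.re + ec.re) : ‖ε - ec‖ ≤ δ / l := by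
  have e1 : ε ^ 2 - ec ^ 2 = (ε - ec) * (ε + ec) := by ring
  rw [e1, norm_mul] at h
  have h1 : l ≤ ‖ε + ec‖ := by
    refine hre.trans ?_
    rw [← Complex.add_re]; exact Complex.re_le_norm _
  rw [le_div_iff₀ hl]
  refine le_trans ?_ h
  gcongr

end Pool.Agent.W_4481e3_q42
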