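import Pool.Agent.W_4481e3_q12.Ev

/-!
First order step of the kill certificate, kernel version.

Scale `2 ^ 24` for points: `(A, B, r)` is the ball with centre `(A - 2^29) + (B - 2^29) i`.
The coefficient of `e - ec` is `((F - 2^28) + (G - 2^28) i) / 2^16`.
-/

namespace Pool.Agent.W_4481e3_q42.Ev

open Pool.Agent.W_MP_4481e3_an.Ev (gd nrm1)
open Pool.Agent.W_4481e3_q12.Ev (ds nrm fid neg)

/-- norm bound, one Newton step -/
def nrq (a b : ℕ) : ℕ :=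
  nrm1 (Nat.add (Nat.mul a a) (Nat.mul b b)) (Nat.add (Nat.div (Nat.mul (Nat.add a b) 27) 32) 1)

/-- `K - (P - Q)` and `K + (P - Q)` -/
def sbp (K P Q : ℕ) : ℕ := Nat.sub (Nat.add K Q) P
def sbn (K P Q : ℕ) : ℕ := Nat.sub (Nat.add K P) Q

noncomputable def q6 (f : ℕ → ℕ) (C D te A B r F G U V Gn R XF XG : ℕ)
    (k : ℕ → ℕ → ℕ → ℕ → ℕ → Bool) : Bool :=
  k (Nat.div (Nat.sub (Nat.add (Nat.mul 16777216 A) (Nat.mul C (f U))) D) 16777216)
    (Nat.div (Nat.sub (Nat.add (Nat.mul 16777216 B) (Nat.mul C (f V))) D) 16777216)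
    (Nat.add (Nat.div (Nat.add (Nat.add (Nat.mul Gn r) (Nat.mul 25 R))
      (Nat.mul C (Nat.add (Nat.div (Nat.mul R R) 16777216) 1))) 16777216) te)
    (Nat.sub (Nat.add F (Nat.div (Nat.mul C XF) 140737488355328)) (Nat.mul 32 C))
    (Nat.sub (Nat.add G (Nat.div (Nat.mul C XG) 140737488355328)) (Nat.mul 32 C))

noncomputable def q5 (f : ℕ → ℕ) (sb : ℕ → ℕ → ℕ → ℕ) (KF C D te A B r F G U V m n R : ℕ)
    (k : ℕ → ℕ → ℕ → ℕ → ℕ → Bool) : Bool :=
  q6 f C D te A B r F G U V (nrm m n (Nat.add (Nat.mul m m) (Nat.mul n n))) R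
    (sb KF (Nat.add (Nat.mul A F) (Nat.add (Nat.mul 536870912 G) (Nat.mul 268435456 B)))
      (Nat.add (Nat.mul B G) (Nat.add (Nat.mul 536870912 F) (Nat.mul 268435456 A))))
    (sb 4503599627370496 (Nat.add (Nat.add (Nat.mul A G) (Nat.mul B F)) 288230376151711744)
      (Nat.add (Nat.mul 536870912 (Nat.add F G)) (Nat.mul 268435456 (Nat.add A B)))) k

noncomputable def q4 (f : ℕ → ℕ) (sb : ℕ → ℕ → ℕ → ℕ) (KF C D X Y te A B r F G b aa bb N s2 nE R : ℕ)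
    (k : ℕ → ℕ → ℕ → ℕ → ℕ → Bool) : Bool :=
  gd (Nat.ble (Nat.add N (Nat.mul 33554432 R)) 7318349394477056)
    (gd (Nat.ble nE 16777216)
      (q5 f sb KF C D te A B r F G
        (Nat.add (Nat.div (Nat.sub (Nat.add bb 9007199254740992) aa) 16777216) X)
        (Nat.add (Nat.div (Nat.sub (Nat.add N 9007199254740992) s2) 16777216) Y)
        (Nat.add (Nat.div (ds (Nat.mul (Nat.mul 2 C) (f A)) (Nat.add 281474976710656 (Nat.mul 2 D)))
          16777216) 1)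
        (Nat.add (Nat.div (Nat.mul (Nat.mul 2 C) b) 16777216) 1) R k))

noncomputable def q3 (f : ℕ → ℕ) (sb : ℕ → ℕ → ℕ → ℕ) (KF C D X Y t te A B r F G b aa bb s nE : ℕ)
    (k : ℕ → ℕ → ℕ → ℕ → ℕ → Bool) : Bool :=
  q4 f sb KF C D X Y te A B r F G b aa bb (Nat.add aa bb) (Nat.mul s s) nE
    (Nat.add (Nat.add (Nat.div (Nat.mul nE t) 65536) 1) r) k

noncomputable def q2 (f : ℕ → ℕ) (sb : ℕ → ℕ → ℕ → ℕ) (KF C D X Y t te A B r F G a b s : ℕ)
    (k : ℕ → ℕ → ℕ → ℕ → ℕ → Bool) : Bool :=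
  q3 f sb KF C D X Y t te A B r F G b (Nat.mul a a) (Nat.mul b b) s
    (nrq (ds F 268435456) (ds G 268435456)) k

/-- one first order step `w ↦ w + c (e - w ^ 2)`; `C = |c| 2^24`, `D = C 2^29` -/
noncomputable def ste (f : ℕ → ℕ) (sb : ℕ → ℕ → ℕ → ℕ) (KF C D X Y t te A B r F G : ℕ)
    (k : ℕ → ℕ → ℕ → ℕ → ℕ → Bool) : Bool :=
  q2 f sb KF C D X Y t te A B r F G (ds A 536870912) (ds B 536870912) (ds (Nat.add A B) 1073741824) k

/-- positive and negative cosine -/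
noncomputable def sep (C X Y t te A B r F G : ℕ) (k : ℕ → ℕ → ℕ → ℕ → ℕ → Bool) : Bool :=
  ste fid sbp 4504149383184384 C (Nat.mul C 536870912) X Y t te A B r F G k
noncomputable def sen (C X Y t te A B r F G : ℕ) (k : ℕ → ℕ → ℕ → ℕ → ℕ → Bool) : Bool :=
  ste neg sbn 4503049871556608 C (Nat.mul C 536870912) X Y t te A B r F G k

end Pool.Agent.W_4481e3_q42.Ev
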