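import Mathlib

/-!
Step lemmas of the kill certificate, over `ℂ`: balls, first order forms, slopes, backward steps.

A first order form of `Z` is `‖Z - (v + L)‖ ≤ R` with the value `L` of the linear part, `‖L‖ ≤ M`.
-/

namespace Pool.Agent.W_4481e3_q42

/-- first order step of `Z ↦ Z + c (e - Z ^ 2)`, `e = ec + η` -/
theorem form_step {Z v L η ec c : ℂ} {M R : ℝ} (h : ‖Z - (v + L)‖ ≤ R) (hL : ‖L‖ ≤ M) :
    ‖Z + c * (ec + η - Z ^ 2) - (v + c * (ec - v ^ 2) + ((1 - 2 * c * v) * L + c * η))‖ ≤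
      ‖1 - 2 * c * v‖ * R + ‖c‖ * (M + R) ^ 2 := by
  set u := Z - (v + L) with hu
  have hZ : Z = v + L + u := by rw [hu]; ring
  have e1 : Z + c * (ec + η - Z ^ 2) - (v + c * (ec - v ^ 2) + ((1 - 2 * c * v) * L + c * η)) =
      (1 - 2 * c * v) * u - c * (L + u) ^ 2 := by rw [hZ]; ring
  rw [e1]
  refine (norm_sub_le _ _).trans ?_
  rw [norm_mul, norm_mul, norm_pow]
  have h1 : ‖L + u‖ ≤ M + R := (norm_add_le _ _).trans (add_le_add hL h)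
  gcongr

/-- ball step of `Z ↦ Z + c (e - Z ^ 2)` -/
theorem ball_step {Z v e ec c : ℂ} {r ρ : ℝ} (h : ‖Z - v‖ ≤ r) (he : ‖e - ec‖ ≤ ρ) :
    ‖Z + c * (e - Z ^ 2) - (v + c * (ec - v ^ 2))‖ ≤ ‖1 - 2 * c * v‖ * r + ‖c‖ * (r ^ 2 + ρ) := by
  have e1 : Z + c * (e - Z ^ 2) - (v + c * (ec - v ^ 2)) =
      (1 - 2 * c * v) * (Z - v) - c * (Z - v) ^ 2 + c * (e - ec) := by ring
  rw [e1]
  have h1 := norm_add_le ((1 - 2 * c * v) * (Z - v) - c * (Z - v) ^ 2) (c * (e - ec))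
  have h2 := norm_sub_le ((1 - 2 * c * v) * (Z - v)) (c * (Z - v) ^ 2)
  rw [norm_mul] at h1
  rw [norm_mul, norm_mul c, norm_pow] at h2
  have h3 : ‖1 - 2 * c * v‖ * ‖Z - v‖ ≤ ‖1 - 2 * c * v‖ * r := by gcongr
  have h4 : ‖c‖ * ‖Z - v‖ ^ 2 ≤ ‖c‖ * r ^ 2 := by gcongr
  have h5 : ‖c‖ * ‖e - ec‖ ≤ ‖c‖ * ρ := by gcongr
  linarith

/-- effect of replacing `c` by a nearby `c'` in a step -/
theorem step_cos {Z e c c' : ℂ} {B δ : ℝ} (hc : ‖c - c'‖ ≤ δ) (hB : ‖e - Z ^ 2‖ ≤ B) :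
    ‖Z + c * (e - Z ^ 2) - (Z + c' * (e - Z ^ 2))‖ ≤ δ * B := by
  have e1 : Z + c * (e - Z ^ 2) - (Z + c' * (e - Z ^ 2)) = (c - c') * (e - Z ^ 2) := by ring
  rw [e1, norm_mul]
  exact mul_le_mul hc hB (norm_nonneg _) ((norm_nonneg _).trans hc)

/-- first order step of the slope `a ↦ ((1 - 2 c w) a + d (e - w ^ 2)) / 2` -/
theorem slope_step {w v L η ec c d a α P : ℂ} {M R N Q : ℝ} (h : ‖w - (v + L)‖ ≤ R) (hL : ‖L‖ ≤ M)
    (ha : ‖a - (α + P)‖ ≤ Q) (hP : ‖P‖ ≤ N) :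
    ‖((1 - 2 * c * w) * a + d * (ec + η - w ^ 2)) / 2 -
      (((1 - 2 * c * v) * α + d * (ec - v ^ 2)) / 2 +
        ((1 - 2 * c * v) * P - 2 * c * α * L + d * (η - 2 * v * L)) / 2)‖ ≤
      (‖1 - 2 * c * v‖ * Q + 2 * ‖c‖ * ‖α‖ * R + 2 * ‖c‖ * (M + R) * (N + Q) +
        ‖d‖ * (2 * ‖v‖ * R + (M + R) ^ 2)) / 2 := by
  set u := w - (v + L) with hu
  set b := a - (α + P) with hb
  have hw : w = v + L + u := by rw [hu]; ring
  have haa : a = α + P + b := by rw [hb]; ring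
  have e1 : ((1 - 2 * c * w) * a + d * (ec + η - w ^ 2)) / 2 -
      (((1 - 2 * c * v) * α + d * (ec - v ^ 2)) / 2 +
        ((1 - 2 * c * v) * P - 2 * c * α * L + d * (η - 2 * v * L)) / 2) =
      ((1 - 2 * c * v) * b - 2 * c * α * u - 2 * c * (L + u) * (P + b) -
        d * (2 * v * u + (L + u) ^ 2)) / 2 := by rw [hw, haa]; ring
  rw [e1, norm_div, Complex.norm_ofNat]
  have h1 : ‖L + u‖ ≤ M + R := (norm_add_le _ _).trans (add_le_add hL h)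
  have h2 : ‖P + b‖ ≤ N + Q := (norm_add_le _ _).trans (add_le_add hP ha)
  have hR : 0 ≤ R := (norm_nonneg _).trans h
  have hM : 0 ≤ M := (norm_nonneg _).trans hL
  have hN : 0 ≤ N := (norm_nonneg _).trans hP
  have hQ : 0 ≤ Q := (norm_nonneg _).trans ha
  have h3 : ‖2 * v * u + (L + u) ^ 2‖ ≤ 2 * ‖v‖ * R + (M + R) ^ 2 := by
    refine (norm_add_le _ _).trans ?_
    rw [norm_mul, norm_mul, norm_pow, Complex.norm_ofNat]
    gcongr
  have h4 := norm_sub_le ((1 - 2 * c * v) * b - 2 * c * α * u - 2 * c * (L + u) * (P + b))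
    (d * (2 * v * u + (L + u) ^ 2))
  have h5 := norm_sub_le ((1 - 2 * c * v) * b - 2 * c * α * u) (2 * c * (L + u) * (P + b))
  have h6 := norm_sub_le ((1 - 2 * c * v) * b) (2 * c * α * u)
  have n1 : ‖(1 - 2 * c * v) * b‖ ≤ ‖1 - 2 * c * v‖ * Q := by rw [norm_mul]; gcongr
  have n2 : ‖2 * c * α * u‖ ≤ 2 * ‖c‖ * ‖α‖ * R := by
    rw [norm_mul, norm_mul, norm_mul, Complex.norm_ofNat]; gcongr
  have n3 : ‖2 * c * (L + u) * (P + b)‖ ≤ 2 * ‖c‖ * (M + R) * (N + Q) := by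
    rw [norm_mul, norm_mul, norm_mul, Complex.norm_ofNat]; gcongr
  have n4 : ‖d * (2 * v * u + (L + u) ^ 2)‖ ≤ ‖d‖ * (2 * ‖v‖ * R + (M + R) ^ 2) := by
    rw [norm_mul]; gcongr
  linarith

/-- step of the difference `h = Z - w` between the test orbit (cosine `c`) and the centre orbit
(cosine `b`) -/
theorem diff_step {w h e b c : ℂ} :
    (w + h) + c * (e - (w + h) ^ 2) - (w + b * (e - w ^ 2)) =
      h * (1 - c * (2 * w + h)) + (c - b) * (e - w ^ 2) := by ring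

/-- **Backward step.** If `f x` and `f q` are close (`f w = w + c (e - w ^ 2)`) then `x` is close to
`q` or to the other preimage `1 / c - q`; `q` is any number, `m ≤ ‖1 - 2 c q‖`. -/
theorem back_step {x q e c : ℂ} {R r m : ℝ} (hc : c ≠ 0)
    (hf : ‖x + c * (e - x ^ 2) - (q + c * (e - q ^ 2))‖ ≤ R) (hm : m ≤ ‖1 - 2 * c * q‖)
    (hr : 0 ≤ r) (hr2 : 2 * ‖c‖ * r ≤ m) (hR : R < r * (m - ‖c‖ * r)) :
    ‖x - q‖ < r ∨ ‖x - (1 / c - q)‖ < r := by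
  by_contra hcon
  push Not at hcon
  obtain ⟨h1, h2⟩ := hcon
  have hcn : 0 < ‖c‖ := norm_pos_iff.2 hc
  have e1 : x + c * (e - x ^ 2) - (q + c * (e - q ^ 2)) = -(c * ((x - q) * (x - (1 / c - q)))) := by
    field_simp
    ring
  rw [e1, norm_neg, norm_mul, norm_mul] at hf
  set X := ‖x - q‖ with hX
  set Y := ‖x - (1 / c - q)‖ with hY
  have h3 : m ≤ ‖c‖ * (X + Y) := by
    have e2 : 1 - 2 * c * q = c * ((x - q) - (x - (1 / c - q))) := by field_simp; ring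
    rw [e2, norm_mul] at hm
    refine hm.trans ?_
    gcongr
    exact norm_sub_le _ _
  -- `X Y ≥ r (m / |c| - r)`
  have h4 : r * (m - ‖c‖ * r) ≤ ‖c‖ * (X * Y) := by
    rcases le_total (‖c‖ * Y) (m - ‖c‖ * r) with h | h
    · -- then `‖c‖ X ≥ m - ‖c‖ Y ≥ ‖c‖ r`
      have h5 : m - ‖c‖ * Y ≤ ‖c‖ * X := by linarith
      have h6 : (m - ‖c‖ * Y) * Y ≤ ‖c‖ * X * Y := by
        apply mul_le_mul_of_nonneg_right h5 (hr.trans h2)
      have h7 : 0 ≤ (Y - r) * (m - ‖c‖ * r - ‖c‖ * Y) := mul_nonneg (by linarith) (by linarith)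
      nlinarith
    · have h5 : r * (m - ‖c‖ * r) ≤ X * (‖c‖ * Y) := by
        apply mul_le_mul h1 h _ (hr.trans h1)
        nlinarith
      linarith
  linarith

/-- merged backward step near the critical point: `x` lies in the ball around `1 / (2 c)` -/
theorem back_merge {x e c q : ℂ} {R r : ℝ} (hc : c ≠ 0) (hq : 2 * c * q = 1)
    (hf : ‖x + c * (e - x ^ 2) - (q + c * (e - q ^ 2))‖ ≤ R) (hr : 0 ≤ r) (hR : R ≤ ‖c‖ * r ^ 2) :
    ‖x - q‖ ≤ r := by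
  have hcn : 0 < ‖c‖ := norm_pos_iff.2 hc
  have e1 : x + c * (e - x ^ 2) - (q + c * (e - q ^ 2)) = -(c * (x - q) ^ 2) := by
    linear_combination (x - q) * (-hq)
  rw [e1, norm_neg, norm_mul, norm_pow] at hf
  have h1 : ‖c‖ * ‖x - q‖ ^ 2 ≤ ‖c‖ * r ^ 2 := hf.trans hR
  have h2 : ‖x - q‖ ^ 2 ≤ r ^ 2 := le_of_mul_le_mul_left h1 hcn
  exact le_of_sq_le_sq h2 hr

end Pool.Agent.W_4481e3_q42
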