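import Pool.Agent.W_4481e3_q42.Form

/-!
First order forms in the cell parameters: `η = e - ec` (`‖η‖ ≤ ρ`) and one more complex parameter
`ζ` (`‖ζ‖ ≤ δ`), with rounding.
-/

namespace Pool.Agent.W_4481e3_q42

/-- `Z` is given by the form `(v, E, D, R)` in the parameters `η, ζ` -/
def FO (η ζ Z v E D : ℂ) (R : ℝ) : Prop := ‖Z - (v + (E * η + D * ζ))‖ ≤ R

/-- change of the coefficients of a form -/
theorem FO.round {η ζ Z v E D v' E' D' : ℂ} {R ρ δ r1 r2 r3 R' : ℝ} (h : FO η ζ Z v E D R)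
    (hη : ‖η‖ ≤ ρ) (hζ : ‖ζ‖ ≤ δ) (h1 : ‖v - v'‖ ≤ r1) (h2 : ‖E - E'‖ ≤ r2) (h3 : ‖D - D'‖ ≤ r3)
    (hR : R + r1 + r2 * ρ + r3 * δ ≤ R') : FO η ζ Z v' E' D' R' := by
  unfold FO at *
  have e1 : Z - (v' + (E' * η + D' * ζ)) =
      Z - (v + (E * η + D * ζ)) + (v - v') + (E - E') * η + (D - D') * ζ := by ring
  rw [e1]
  have n1 := norm_add_le (Z - (v + (E * η + D * ζ)) + (v - v') + (E - E') * η) ((D - D') * ζ)
  have n2 := norm_add_le (Z - (v + (E * η + D * ζ)) + (v - v')) ((E - E') * η)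
  have n3 := norm_add_le (Z - (v + (E * η + D * ζ))) (v - v')
  have m1 : ‖(D - D') * ζ‖ ≤ r3 * δ := by
    rw [norm_mul]; exact mul_le_mul h3 hζ (norm_nonneg _) ((norm_nonneg _).trans h3)
  have m2 : ‖(E - E') * η‖ ≤ r2 * ρ := by
    rw [norm_mul]; exact mul_le_mul h2 hη (norm_nonneg _) ((norm_nonneg _).trans h2)
  linarith

/-- the value of the linear part -/
theorem lin_le {η ζ E D : ℂ} {ρ δ M : ℝ} (hη : ‖η‖ ≤ ρ) (hζ : ‖ζ‖ ≤ δ)
    (hM : ‖E‖ * ρ + ‖D‖ * δ ≤ M) : ‖E * η + D * ζ‖ ≤ M := by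
  refine le_trans ?_ hM
  refine (norm_add_le _ _).trans ?_
  rw [norm_mul, norm_mul]
  gcongr

/-- **First order step** of `Z ↦ Z + c (e - Z ^ 2)` with rounding -/
theorem FO.step {η ζ Z v E D ec c v' E' D' : ℂ} {R ρ δ M r1 r2 r3 R' : ℝ} (h : FO η ζ Z v E D R)
    (hη : ‖η‖ ≤ ρ) (hζ : ‖ζ‖ ≤ δ) (hM : ‖E‖ * ρ + ‖D‖ * δ ≤ M)
    (h1 : ‖v + c * (ec - v ^ 2) - v'‖ ≤ r1) (h2 : ‖(1 - 2 * c * v) * E + c - E'‖ ≤ r2)
    (h3 : ‖(1 - 2 * c * v) * D - D'‖ ≤ r3)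
    (hR : ‖1 - 2 * c * v‖ * R + ‖c‖ * (M + R) ^ 2 + r1 + r2 * ρ + r3 * δ ≤ R') :
    FO η ζ (Z + c * (ec + η - Z ^ 2)) v' E' D' R' := by
  have hs : FO η ζ (Z + c * (ec + η - Z ^ 2)) (v + c * (ec - v ^ 2)) ((1 - 2 * c * v) * E + c)
      ((1 - 2 * c * v) * D) (‖1 - 2 * c * v‖ * R + ‖c‖ * (M + R) ^ 2) := by
    have := form_step (ec := ec) (η := η) (c := c) h (lin_le hη hζ hM)
    unfold FO
    have e1 : (1 - 2 * c * v) * (E * η + D * ζ) + c * η =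
        ((1 - 2 * c * v) * E + c) * η + (1 - 2 * c * v) * D * ζ := by ring
    rwa [e1] at this
  exact hs.round hη hζ h1 h2 h3 hR

/-- ball containing a form -/
theorem FO.ball {η ζ Z v E D : ℂ} {R ρ δ M : ℝ} (h : FO η ζ Z v E D R) (hη : ‖η‖ ≤ ρ) (hζ : ‖ζ‖ ≤ δ)
    (hM : ‖E‖ * ρ + ‖D‖ * δ ≤ M) : ‖Z - v‖ ≤ M + R := by
  have e1 : Z - v = (E * η + D * ζ) + (Z - (v + (E * η + D * ζ))) := by ring
  rw [e1]
  exact (norm_add_le _ _).trans (add_le_add (lin_le hη hζ hM) h)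

/-- the form at the test point `s` of the leaf germ `(w, a)`: `ζ = (w - wc) + s (a - ac)`; the
cell is sheared: `w = wc + μ η + ω`, `a = ac + ν η + π` -/
theorem FO.test {η ω π Z w a wc ac μ ν : ℂ} {s κ : ℝ} (hw : w = wc + μ * η + ω)
    (ha : a = ac + ν * η + π) (hZ : ‖Z - (w + a * s)‖ ≤ κ * s ^ 2 / 2) :
    FO η (ω + s * π) Z (wc + ac * s) (μ + ν * s) 1 (κ * s ^ 2 / 2) := by
  unfold FO
  have e1 : Z - (wc + ac * s + ((μ + ν * s) * η + 1 * (ω + s * π))) = Z - (w + a * s) := by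
    rw [hw, ha]; ring
  rw [e1]; exact hZ

/-- slope form `a - (α + A η + B ω + P π)` -/
def SF (η ω π a α A B P : ℂ) (Q : ℝ) : Prop := ‖a - (α + (A * η + B * ω + P * π))‖ ≤ Q

/-- change of the coefficients of a slope form -/
theorem SF.round {η ω π a α A B P α' A' B' P' : ℂ} {Q ρ δ τ r1 r2 r3 r4 Q' : ℝ}
    (h : SF η ω π a α A B P Q) (hη : ‖η‖ ≤ ρ) (hω : ‖ω‖ ≤ δ) (hπ : ‖π‖ ≤ τ) (h1 : ‖α - α'‖ ≤ r1)
    (h2 : ‖A - A'‖ ≤ r2) (h3 : ‖B - B'‖ ≤ r3) (h4 : ‖P - P'‖ ≤ r4)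
    (hQ : Q + r1 + r2 * ρ + r3 * δ + r4 * τ ≤ Q') : SF η ω π a α' A' B' P' Q' := by
  unfold SF at *
  have e1 : a - (α' + (A' * η + B' * ω + P' * π)) =
      a - (α + (A * η + B * ω + P * π)) + (α - α') + (A - A') * η + (B - B') * ω + (P - P') * π := by
    ring
  rw [e1]
  have n0 := norm_add_le (a - (α + (A * η + B * ω + P * π)) + (α - α') + (A - A') * η + (B - B') * ω)
    ((P - P') * π)
  have n1 := norm_add_le (a - (α + (A * η + B * ω + P * π)) + (α - α') + (A - A') * η) ((B - B') * ω)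
  have n2 := norm_add_le (a - (α + (A * η + B * ω + P * π)) + (α - α')) ((A - A') * η)
  have n3 := norm_add_le (a - (α + (A * η + B * ω + P * π))) (α - α')
  have m0 : ‖(P - P') * π‖ ≤ r4 * τ := by
    rw [norm_mul]; exact mul_le_mul h4 hπ (norm_nonneg _) ((norm_nonneg _).trans h4)
  have m1 : ‖(B - B') * ω‖ ≤ r3 * δ := by
    rw [norm_mul]; exact mul_le_mul h3 hω (norm_nonneg _) ((norm_nonneg _).trans h3)
  have m2 : ‖(A - A') * η‖ ≤ r2 * ρ := by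
    rw [norm_mul]; exact mul_le_mul h2 hη (norm_nonneg _) ((norm_nonneg _).trans h2)
  linarith

/-- **Slope step**, exact coefficients -/
theorem SF.step {η ω π w a v E D α A B P ec c d : ℂ} {R Q ρ δ τ M N : ℝ} (hw : FO η ω w v E D R)
    (ha : SF η ω π a α A B P Q) (hη : ‖η‖ ≤ ρ) (hω : ‖ω‖ ≤ δ) (hπ : ‖π‖ ≤ τ)
    (hM : ‖E‖ * ρ + ‖D‖ * δ ≤ M) (hN : ‖A‖ * ρ + ‖B‖ * δ + ‖P‖ * τ ≤ N) :
    SF η ω π (((1 - 2 * c * w) * a + d * (ec + η - w ^ 2)) / 2)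
      (((1 - 2 * c * v) * α + d * (ec - v ^ 2)) / 2)
      (((1 - 2 * c * v) * A - 2 * c * α * E + d * (1 - 2 * v * E)) / 2)
      (((1 - 2 * c * v) * B - 2 * c * α * D - 2 * d * v * D) / 2)
      ((1 - 2 * c * v) * P / 2)
      ((‖1 - 2 * c * v‖ * Q + 2 * ‖c‖ * ‖α‖ * R + 2 * ‖c‖ * (M + R) * (N + Q) +
        ‖d‖ * (2 * ‖v‖ * R + (M + R) ^ 2)) / 2) := by
  have hP : ‖A * η + B * ω + P * π‖ ≤ N := by
    refine le_trans ?_ hN
    refine (norm_add_le _ _).trans ?_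
    have := norm_add_le (A * η) (B * ω)
    rw [norm_mul, norm_mul] at this
    rw [norm_mul]
    have t1 : ‖A‖ * ‖η‖ ≤ ‖A‖ * ρ := by gcongr
    have t2 : ‖B‖ * ‖ω‖ ≤ ‖B‖ * δ := by gcongr
    have t3 : ‖P‖ * ‖π‖ ≤ ‖P‖ * τ := by gcongr
    linarith
  have h := slope_step (ec := ec) (η := η) (c := c) (d := d) hw (lin_le hη hω hM) ha hP
  unfold SF
  have e1 : ((1 - 2 * c * v) * (A * η + B * ω + P * π) - 2 * c * α * (E * η + D * ω) +
        d * (η - 2 * v * (E * η + D * ω))) / 2 =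
      ((1 - 2 * c * v) * A - 2 * c * α * E + d * (1 - 2 * v * E)) / 2 * η +
        ((1 - 2 * c * v) * B - 2 * c * α * D - 2 * d * v * D) / 2 * ω +
        (1 - 2 * c * v) * P / 2 * π := by ring
  rw [e1] at h
  exact h

/-- `‖b‖ > Λ ‖a‖` from a linear certificate: directions `u` and `t` -/
theorem prune {a b u t : ℂ} {Λ x y U T : ℝ} (hΛ : 0 ≤ Λ) (hU : 0 < U) (hu : ‖u‖ ≤ U) (hT : 0 < T)
    (ht : T ≤ ‖t‖) (hx : 0 < x) (hre : x ≤ (t * a).re) (him : |(t * a).im| ≤ y)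
    (h : Λ * U * (y ^ 2 / (2 * x)) < (T * (u * b) - Λ * U * (t * a)).re) : Λ * ‖a‖ < ‖b‖ := by
  have h1 : (u * b).re ≤ U * ‖b‖ := by
    refine (Complex.re_le_norm _).trans ?_
    rw [norm_mul]
    exact mul_le_mul_of_nonneg_right hu (norm_nonneg _)
  set p := (t * a).re with hp
  have h2 : T * ‖a‖ ≤ p + y ^ 2 / (2 * x) := by
    have e1 : T * ‖a‖ ≤ ‖t * a‖ := by
      rw [norm_mul]; exact mul_le_mul_of_nonneg_right ht (norm_nonneg _)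
    refine e1.trans ?_
    set q := (t * a).im with hq
    have h3 : ‖t * a‖ ^ 2 = p ^ 2 + q ^ 2 := by rw [Complex.sq_norm, Complex.normSq_apply]; ring
    have h4 : q ^ 2 ≤ y ^ 2 := sq_le_sq' (by linarith [(abs_le.1 him).1]) (abs_le.1 him).2
    have h6 : 0 ≤ y ^ 2 / (2 * x) := by positivity
    have h7 : y ^ 2 ≤ 2 * p * (y ^ 2 / (2 * x)) := by
      have h8 : 2 * x * (y ^ 2 / (2 * x)) = y ^ 2 := by field_simp
      have h9 : 2 * x * (y ^ 2 / (2 * x)) ≤ 2 * p * (y ^ 2 / (2 * x)) := by gcongr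
      linarith
    have h5 : p ^ 2 + q ^ 2 ≤ (p + y ^ 2 / (2 * x)) ^ 2 := by
      have e2 : (p + y ^ 2 / (2 * x)) ^ 2 = p ^ 2 + 2 * p * (y ^ 2 / (2 * x)) + (y ^ 2 / (2 * x)) ^ 2 := by
        ring
      rw [e2]
      have := sq_nonneg (y ^ 2 / (2 * x))
      linarith
    have hp0 : 0 ≤ p := hx.le.trans hre
    apply le_of_sq_le_sq (by rw [h3]; exact h5)
    positivity
  have e2 : (T * (u * b) - Λ * U * (t * a)).re = T * (u * b).re - Λ * U * p := by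
    rw [Complex.sub_re, Complex.re_ofReal_mul, hp, ← Complex.ofReal_mul, Complex.re_ofReal_mul]
  rw [e2] at h
  have h3 : Λ * U * (T * ‖a‖) ≤ Λ * U * (p + y ^ 2 / (2 * x)) := by gcongr
  have h4 : T * (u * b).re ≤ T * (U * ‖b‖) := by gcongr
  have h5 : (U * T) * (Λ * ‖a‖) < (U * T) * ‖b‖ := by nlinarith
  exact lt_of_mul_lt_mul_left h5 (by positivity)

end Pool.Agent.W_4481e3_q42
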