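import Pool.Agent.W_4481e3_q46.Frame

/-!
Frame with the slope bound `Lam * A` at the phase `1`.
-/

open Filter Topology Set

namespace Pool.Agent.W_4481e3_q42.Glue

open Pool.Agent.W_MP_4481e3_an hiding Par
open Pool.Agent.W_4481e3_q42 Pool.Agent.W_4481e3_q59 Pool.Agent.W_4481e3_q46
open Pool.Agent.W_MP_4481e3_an.Boot (slope)
open Pool.Agent.W_4481e3_h1 (b15)

/-- slope bounds: `Lam * A` at the phase `1`, `β` at the other phases -/
noncomputable def bQ (β : ℕ → ℝ → ℝ) (p : ℕ) (A : ℝ) : ℝ := if p % 4 = 1 then Lam * A else β p A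

/-- **Kill certificate of a row** at the parameter `ε`: time `0` at the phase `1` (base `2 / 15`),
slope at the time `0` in `[lo, hi]`. -/
def RowKillQ (ε : ℂ) (m N : ℕ) (r : Row) (lo hi : ℝ) : Prop :=
  ∀ A, lo ≤ A → A ≤ hi → ∃ n ≤ N,
    KillAtQ ε m (bQ (fun p _ => r.beta (p % 4))) (fun p _ => r.kap (p % 4)) (fun p _ => r.tau (p % 4))
      1 A 1 n

/-- **Final assembly**, for the table `d :: rs` and the top slope `top ≥ Lam * Ahi`. -/
theorem noFam2_of_rowsQ {Ahi top : ℝ} {m N : ℕ} {d : Row} {rs : List Row} (hlo0 : 0 < d.lo)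
    (hmono : Mono d rs) (hpos : EachRow (fun r => 0 < r.kap 1 ∧ 0 < r.tau 1) d rs)
    (htop : Lam * Ahi ≤ top) (hAhi : 0 ≤ Ahi) (hhi : HiStmt Ahi) (hlo : LoStmt d.lo)
    (hper : ∀ ε : ℂ, Par ε → AllRows (RowPer ε) top d rs)
    (hkill : ∀ ε : ℂ, Par ε → AllRows (RowKillQ ε m N) top d rs) : NoFam2 := by
  intro ε h1 h2 h3 h4 h5 ρ A K V hF
  have hP : Par ε := ⟨h1, h2, h3, h4, h5⟩
  obtain ⟨a0, hc⟩ := hF.c11
  have hΛ : (1 : ℝ) < Lam := by unfold Lam; norm_num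
  have hAtop : Ahi ≤ top := le_trans (by nlinarith) htop
  refine no_fam2_perQ (q := 1) (m := m) (Nmax := N) (Λ := Lam) (Alo := d.lo) (Ahi := Ahi)
    (κ := kapT d rs) (τ := tauT d rs) (β := bQ (betaT d rs)) hP.adm hF (by norm_num) hΛ hlo0 hc
    (hhi ε hP ρ A K V a0 hF hc) (hlo ε hP ρ A K V a0 hF hc) (kapT_four d rs) (tauT_four d rs)
    (fun p A => ?_) (fun p A B _ hAB => kapT_mono hmono p hAB)
    (fun p A B _ hAB => tauT_anti hmono p hAB) (fun p A B _ hAB => ?_)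
    (fun A _ => (pick_mem hpos A).1) (fun A _ => (pick_mem hpos A).2) ?_ ?_
  · unfold bQ
    rw [Nat.add_mod_right, betaT_four]
  · unfold bQ
    split_ifs
    · nlinarith
    · exact betaT_mono hmono p hAB
  · intro A hA1 hA2
    obtain ⟨lo, hi, hl, hh, θ, h, hθ0, hθ1, ht, htj, hq⟩ :=
      pick_all (hper ε hP) hA1 (hA2.trans hAtop)
    refine ⟨θ, h, hθ0, hθ1, ht, fun j hj1 hj4 => ?_, ?_⟩
    · exact htj j hj1 hj4
    · have hq' := perQ_anti hq (show Lam * A ≤ Lam * hi by nlinarith)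
      intro w a hw h1 h2
      obtain ⟨p1, p2, p3⟩ := hq' w a hw h1 h2
      refine ⟨fun j hj => ?_, p2, p3⟩
      show ‖aa (ε ^ 2) 1 w a j‖ ≤ bQ (betaT d rs) (1 + j) A
      unfold bQ
      by_cases hj1 : (1 + j) % 4 = 1
      · rw [if_pos hj1]
        have : j = 0 := by omega
        subst this
        exact h1
      · rw [if_neg hj1]
        exact p1 j hj
  · intro A hA1 hA2
    obtain ⟨lo, hi, hl, hh, hk⟩ := pick_all (hkill ε hP) hA1 (hA2.trans htop)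
    obtain ⟨n, hn, hk⟩ := hk A hl hh
    exact ⟨n, hn, hk⟩

/-- the certificate on a square of the parameter plane -/
def SqKillQ (m N : ℕ) (top : ℝ) (d : Row) (rs : List Row) (X Y H : ℕ) : Prop :=
  ∀ ε : ℂ, Par ε → InSq X Y H (ε ^ 2) → AllRows (RowKillQ ε m N) top d rs

/-- **Final assembly**, with the list of the squares. -/
theorem noFam2_of_squaresQ {Ahi top : ℝ} {m N : ℕ} {d : Row} {rs : List Row} (hlo0 : 0 < d.lo)
    (hmono : Mono d rs) (hpos : EachRow (fun r => 0 < r.kap 1 ∧ 0 < r.tau 1) d rs)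
    (htop : Lam * Ahi ≤ top) (hAhi : 0 ≤ Ahi) (hhi : HiStmt Ahi) (hlo : LoStmt d.lo)
    (hper : ∀ ε : ℂ, Par ε → AllRows (RowPer ε) top d rs)
    {L : List (ℕ × ℕ × ℕ)} {n X Y H : ℕ} (hX : X ≤ H) (hY : Y ≤ H)
    (hX' : 4194304 ≤ X + H) (hY' : 4194304 ≤ Y + H) (hcov : cov L n X Y H = true)
    (hsq : ∀ s ∈ L, SqKillQ m N top d rs s.1 s.2.1 s.2.2) : NoFam2 := by
  refine noFam2_of_rowsQ (m := m) (N := N) hlo0 hmono hpos htop hAhi hhi hlo hper fun ε hP => ?_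
  obtain ⟨s, hs, hin⟩ := cover hX hY hX' hY' hcov hP.2.2.2.2 hP.im_sq
  exact hsq s hs ε hP hin

/-- change of the constants in a period certificate -/
lemma rowPer_of_perQ {ε : ℂ} {r : Row} {lo hi A h θ : ℝ} {κ β : ℕ → ℝ} (hP : PerQ ε 1 A h θ κ β)
    (hA : Lam * hi ≤ A) (hθ0 : 0 ≤ θ) (hθ1 : θ < 1) (ht : r.tau 1 = 16 * h)
    (htj : ∀ j, 1 ≤ j → j < 4 → r.tau ((1 + j) % 4) ≤ 2 ^ j * h) (hκ0 : r.kap 1 = κ 0)
    (hκ : ∀ j, 1 ≤ j → j < 4 → κ j ≤ r.kap ((1 + j) % 4))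
    (hβ0 : Lam * hi ≤ r.beta 1)
    (hβ : ∀ j, 1 ≤ j → j < 4 → β j ≤ r.beta ((1 + j) % 4)) : RowPer ε r lo hi := by
  refine ⟨θ, h, hθ0, hθ1, ht, htj, ?_⟩
  intro w a hw h1 h2
  obtain ⟨p1, p2, p3⟩ := hP w a hw (h1.trans hA) (h2.trans hA)
  have e0 : r.kap ((1 + 0) % 4) = κ 0 := hκ0
  refine ⟨fun j hj => ?_, fun j hj1 hj4 => ?_, ?_⟩
  · rcases Nat.eq_zero_or_pos j with rfl | hj0
    · exact h1.trans hβ0
    · exact (p1 j hj).trans (hβ j hj0 hj)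
  · show perK ε 1 w a h (r.kap ((1 + 0) % 4)) j ≤ r.kap ((1 + j) % 4)
    rw [e0]
    exact (p2 j hj1 hj4).trans (hκ j hj1 hj4)
  · show perK ε 1 w a h (r.kap ((1 + 0) % 4)) 4 ≤ θ * r.kap ((1 + 0) % 4)
    rw [e0]
    exact p3

end Pool.Agent.W_4481e3_q42.Glue
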