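import Pool.Agent.W_4481e3_q42.FrameQ
import Pool.Agent.W_4481e3_q87.LeafOK
import Pool.Agent.W_4481e3_q12.Contr

/-!
From the certificate of an octave on a square (root cell) to the kill certificates of its two rows.
-/

open Filter Topology Set

namespace Pool.Agent.W_4481e3_q42.Glue

open Complex
open Pool.Agent.W_4481e3_q42 (Alive Adm aa ww cc dd orb TestDead)
open Pool.Agent.W_4481e3_q12 (Good zz zz_add)
open Pool.Agent.W_4481e3_q12.Ev (cph)
open Pool.Agent.W_MP_4481e3_an.Ev (pt)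
open Pool.Agent.W_4481e3_q42.Ev (cf k0)
open Pool.Agent.W_4481e3_q46 (Row Par Lam InSq)
open Pool.Agent.W_4481e3_q59 (KillAtQ)
open Pool.Agent.W_4481e3_q25.EvR (Situ Cell Cov CovS Sr So)

/-! ### the root -/

lemma good_of_alive {ε : ℂ} {p : ℕ} {w : ℂ} (h : Alive ε (2 ^ p / 15) w) : Good (ε ^ 2) p w := by
  set e := ε ^ 2 with he
  have horb : ∀ j, orb e (2 ^ p / 15) w j = zz e p j w := by
    intro j
    induction j with
    | zero => rfl
    | succ j ih =>
      have h1 : zz e p (j + 1) w = zz e p j w + (cph (p + j) : ℂ) * (e - zz e p j w ^ 2) := by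
        rw [zz_add]; rfl
      rw [h1, ← ih]
      show orb e (2 ^ p / 15) w j + (Real.cos (2 * Real.pi * (2 ^ j * (2 ^ p / 15))) : ℂ) * _ = _
      congr 2
      unfold cph
      congr 2
      rw [pow_add]
      ring
  refine ⟨fun j => ?_, fun j hj => ?_⟩
  · rw [← horb]; exact h.bd j
  · rw [← horb]
    have hx : (2:ℝ) ^ j * (2 ^ p / 15) = 2 ^ (p + j) / 15 := by rw [pow_add]; ring
    obtain ⟨n, hn⟩ : ∃ n : ℤ, (2:ℤ) ^ (p + j) = 15 * n + 4 := by
      have h1 : (2:ℤ) ^ (p + j) ≡ 4 [ZMOD 15] := by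
        obtain ⟨m, hm⟩ : ∃ m, p + j = 4 * m + 2 := ⟨(p + j) / 4, by omega⟩
        rw [hm, pow_add, pow_mul]
        have h2 : ((2:ℤ) ^ 4) ^ m ≡ 1 ^ m [ZMOD 15] := Int.ModEq.pow m (by decide)
        rw [one_pow] at h2
        have h3 := h2.mul_right (2 ^ 2)
        norm_num at h3 ⊢
        exact h3
      obtain ⟨k, hk⟩ := h1.symm.dvd
      exact ⟨k, by linarith⟩
    have hn' : (2:ℝ) ^ (p + j) = 15 * n + 4 := by exact_mod_cast hn
    have h4 := h.half j n (by rw [hx, hn']; linarith) (by rw [hx, hn']; linarith)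
    rw [hx] at h4
    exact h4

lemma norm_point {ε w : ℂ} (hε : ‖ε‖ < 1 / 2) (h : Alive ε (2 / 15) w) : ‖16777216 * w‖ ≤ 57378078 := by
  have h1 : Alive ε (2 ^ 1 / 15) w := by rw [pow_one]; exact h
  have h2 := (good_of_alive h1).al (by
    rw [norm_pow]
    nlinarith [norm_nonneg ε]) 0
  have h3 : Pool.Agent.W_4481e3_q12.Ev.TT (1 + 0) = 57378078 := by
    norm_num [Pool.Agent.W_4481e3_q12.Ev.TT]
  rw [h3] at h2
  exact h2

/-- the root cell -/
lemma cell_root {K TAU A1 A2 X Y H q : ℕ} {ε w a : ℂ} (h : Situ K TAU A1 A2 ε w a)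
    (hE : Pool.Agent.W_4481e3_q46.InSq X Y H (ε ^ 2)) (hq : 101 * A2 ≤ 100 * q) :
    Cell X H Y H 536870912 536870912 57378079 57378079 268435456 268435456 16777216 16777216 q q
      (16777216 * ε ^ 2) (16777216 * w) (16384 * a) := by
  have e16 : (16777216 : ℂ) = ((16777216 : ℝ) : ℂ) := by norm_num
  have hw := norm_point h.adm.lt_half h.alive
  have hz : pt 536870912 536870912 + cf 268435456 268435456 * (16777216 * ε ^ 2 - k0 X Y) = 0 := by
    have h1 : pt 536870912 536870912 = 0 := by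
      unfold pt; apply Complex.ext <;> norm_num
    have h2 : cf 268435456 268435456 = 0 := by
      unfold cf; apply Complex.ext <;> norm_num
    rw [h1, h2]; ring
  have ha : ‖16384 * a‖ ≤ q := by
    have e : ‖(16384 : ℂ)‖ = 16384 := by norm_num
    have h1 := h.four
    have h2 := h.hi
    have h3 : (101:ℝ) * A2 ≤ 100 * q := by exact_mod_cast hq
    rw [norm_mul, e]
    linarith
  have e24 : (2:ℝ) ^ 24 = 16777216 := by norm_num
  obtain ⟨hE1, hE2⟩ := hE
  rw [e24] at hE1 hE2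
  refine ⟨?_, ?_, ?_, ?_, ?_, ?_⟩
  · rw [e16, Complex.re_ofReal_mul]; exact hE1
  · rw [e16, Complex.im_ofReal_mul]; exact hE2
  · rw [hz, sub_zero]
    refine ((Complex.abs_re_le_norm _).trans hw).trans ?_
    norm_num
  · rw [hz, sub_zero]
    refine ((Complex.abs_im_le_norm _).trans hw).trans ?_
    norm_num
  · have e : ((16777216 : ℕ) : ℝ) - 16777216 = 0 := by norm_num
    rw [e, sub_zero]
    exact (Complex.abs_re_le_norm _).trans ha
  · have e : ((16777216 : ℕ) : ℝ) - 16777216 = 0 := by norm_num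
    rw [e, sub_zero]
    exact (Complex.abs_im_le_norm _).trans ha


/-! ### one octave on one square -/

/-- no state of the octave over the square -/
def RootO (X Y H K1 K2 TAU A1 Am A2 : ℕ) : Prop :=
  CovS (So K1 K2 TAU A1 Am A2) X H Y H 536870912 536870912 57378079 57378079 268435456 268435456
    16777216 16777216 (101 * A2 / 100 + 1) (101 * A2 / 100 + 1)

lemma q_le (A2 : ℕ) : 101 * A2 ≤ 100 * (101 * A2 / 100 + 1) := by omega

/-- no situation of the lower row -/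
lemma RootO.lower {X Y H K1 K2 TAU A1 Am A2 : ℕ} (h : RootO X Y H K1 K2 TAU A1 Am A2) (hA : Am ≤ A2)
    {ε w a : ℂ} (hs : Situ K1 TAU A1 Am ε w a) (hE : InSq X Y H (ε ^ 2)) : False :=
  h _ _ _ (Or.inl ⟨ε, w, a, hs, rfl, rfl, rfl⟩) (cell_root hs hE
    ((Nat.mul_le_mul_left 101 hA).trans (q_le A2)))

/-- no situation of the upper row -/
lemma RootO.upper {X Y H K1 K2 TAU A1 Am A2 : ℕ} (h : RootO X Y H K1 K2 TAU A1 Am A2)
    {ε w a : ℂ} (hs : Situ K2 TAU Am A2 ε w a) (hE : InSq X Y H (ε ^ 2)) : False :=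
  h _ _ _ (Or.inr ⟨ε, w, a, hs, rfl, rfl, rfl⟩) (cell_root hs hE (q_le A2))

lemma Par.reg {ε : ℂ} (h : Par ε) : 47 * ‖ε ^ 2‖ ^ 2 < 32 * (ε ^ 2).re := by
  obtain ⟨h1, h2, h3⟩ := h.2.2.2.2
  have h4 := norm_nonneg (ε ^ 2)
  have h5 : ‖ε ^ 2‖ ^ 4 ≤ 1 / 16 * ‖ε ^ 2‖ ^ 2 := by
    have h6 : ‖ε ^ 2‖ ^ 2 ≤ 1 / 16 := by nlinarith
    nlinarith [sq_nonneg (‖ε ^ 2‖)]
  linarith

/-- **kill certificate of a row**, if there is no situation -/
theorem rowKill_of_no {ε : ℂ} (hP : Par ε) {K TAU A1 A2 : ℕ} {r : Row} {lo hi : ℝ}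
    (H : ∀ w a : ℂ, Situ K TAU A1 A2 ε w a → False) (hK : 16 * r.kap 1 ≤ K)
    (hT : (TAU : ℝ) ≤ 17179869184 * r.tau 1) (h1 : (A1 : ℝ) ≤ 16384 * lo)
    (h2 : 16384 * hi ≤ (A2 : ℝ)) : RowKillQ ε 0 4 r lo hi := by
  intro A hA1 hA2
  refine ⟨4, le_rfl, ?_⟩
  intro p w a hp hpn hal hA hb
  have hp1 : p = 1 := by omega
  subst hp1
  rw [mul_one] at hA
  by_contra hcon
  push Not at hcon
  have h0 := hcon 0 le_rfl
  have hb0 := hb 0 le_rfl
  have e1 : bQ (fun p _ => r.beta (p % 4)) (1 + 0) A = 101 / 100 * A := by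
    unfold bQ Lam
    rw [if_pos (by norm_num)]
  rw [e1] at hb0
  have hb1 : ‖a‖ ≤ 101 / 100 * A := hb0
  have hal' : Alive ε (2 / 15) w := by rw [pow_one] at hal; exact hal
  refine H w a ⟨hP.adm, Par.reg hP, hal', ?_, ?_, ?_, fun s hs => ?_⟩
  · rw [hA]; linarith
  · rw [hA]; linarith
  · rw [hA]; linarith
  · by_contra hno
    push Not at hno
    refine h0 ⟨s, ?_, fun Z hZ => ?_⟩
    · show |s| ≤ r.tau 1
      nlinarith
    · have hZ1 : ‖Z - (w + a * s)‖ ≤ r.kap 1 * s ^ 2 / 2 := hZ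
      have h3 := hno Z (hZ1.trans (by nlinarith [sq_nonneg s]))
      show ¬ Alive ε (2 ^ (1 + 0) / 15 + s) Z
      rw [add_zero, pow_one]
      exact h3

end Pool.Agent.W_4481e3_q42.Glue
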