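import Pool.Agent.W_4481e3_q42.FrameQ
import Pool.Agent.W_4481e3_h41.FlatHlo

/-!
`LoStmt 2` from the period certificate with the slope bound `2.02` and the flat kill certificate.
-/

open Filter Topology Set

namespace Pool.Agent.W_4481e3_q42.Glue

open Pool.Agent.W_4481e3_q42 Pool.Agent.W_4481e3_q46 Pool.Agent.W_4481e3_q59
open Pool.Agent.W_MP_4481e3_an.Boot (slope)
open Pool.Agent.W_4481e3_h1 (b15)

/-- what the flat tree has to give, at the parameter `ε` -/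
def FlatKill (ε : ℂ) (k0 h : ℝ) : Prop :=
  ∀ w a : ℂ, Alive ε (2 / 15) w → (‖ε ^ 2‖ ≤ 1 / 1024 → 1 / 21 < ‖w‖) → ‖a‖ ≤ 101 / 50 →
    TestDead ε 1 w a k0 (16 * h)

theorem loStmt_two {k0 h : ℝ} (hk : 0 < k0) (hh : 0 < h)
    (hP : ∀ ε : ℂ, Par ε → ∃ (A θ : ℝ) (κ β : ℕ → ℝ), 101 / 50 ≤ A ∧ 0 ≤ θ ∧ θ < 1 ∧ κ 0 = k0 ∧
      PerQ ε 1 A h θ κ β)
    (hkill : ∀ ε : ℂ, Par ε → FlatKill ε k0 h) : LoStmt 2 := by
  intro ε hε ρ A K V a0 hF hc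
  obtain ⟨A', θ, κ, β, hA', hθ0, hθ1, hκ0, hPQ⟩ := hP ε hε
  have h1 := Pool.Agent.W_4481e3_h41.flat_hlo hε.adm hF (Af := 101 / 50) hc hh hθ0 hθ1
    (by rw [hκ0]; exact hk) (perQ_anti hPQ hA') (fun w a hw1 hw2 hw3 => by
      rw [hκ0]
      exact hkill ε hε w a hw1 hw2 hw3)
  refine h1.mono fun i hi => ?_
  have e : Lam * 2 = 101 / 50 := by unfold Lam; norm_num
  rw [e]
  exact hi.le

end Pool.Agent.W_4481e3_q42.Glue
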