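import Mathlib

/-!
Escape and traps for the two frozen maps `Z ↦ Z + (ε ^ 2 - Z ^ 2)` (base `0`) and
`Z ↦ Z - (ε ^ 2 - Z ^ 2) / 2` (base `1 / 3`).
-/

open Filter Topology

namespace Pool.Agent.W_4481e3_q42

/-- escape for `y ↦ y ^ 2 + κ` -/
theorem quad_escape {κ : ℂ} {u : ℕ → ℂ} (hu : ∀ j, u (j + 1) = u j ^ 2 + κ) {k : ℝ} (hk : ‖κ‖ ≤ k)
    {r : ℝ} (hr : r + k < r ^ 2) (hr0 : 1 / 2 ≤ r) (h0 : r ≤ ‖u 0‖) (M : ℝ) : ∃ j, M < ‖u j‖ := by
  have key : ∀ j : ℕ, r + j * (r ^ 2 - r - k) ≤ ‖u j‖ := by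
    intro j
    induction j with
    | zero => simpa using h0
    | succ j ih =>
      have h1 : ‖u j‖ ^ 2 - k ≤ ‖u (j + 1)‖ := by
        rw [hu]
        have := norm_sub_norm_le (u j ^ 2) (-κ)
        rw [sub_neg_eq_add, norm_neg, norm_pow] at this
        linarith
      have h2 : 0 ≤ (j : ℝ) * (r ^ 2 - r - k) := by
        apply mul_nonneg (Nat.cast_nonneg j); linarith
      have h3 : r ≤ ‖u j‖ := by linarith
      have h4 : r ^ 2 - r ≤ ‖u j‖ ^ 2 - ‖u j‖ := by nlinarith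
      push_cast
      linarith
  obtain ⟨j, hj⟩ := exists_nat_gt ((M - r) / (r ^ 2 - r - k))
  refine ⟨j, ?_⟩
  have h1 : 0 < r ^ 2 - r - k := by linarith
  rw [div_lt_iff₀ h1] at hj
  linarith [key j]

/-- the small trap `|y| ≤ 1/2` -/
lemma quad_trap_half {κ α : ℂ} {u : ℕ → ℂ} (hu : ∀ j, u (j + 1) = u j ^ 2 + κ) (hα : α ^ 2 + κ = α)
    (hα2 : ‖α‖ < 1 / 2) (hκ : ‖κ‖ ≤ 1 / 4) (h0 : ‖u 0‖ ≤ 1 / 2) : Tendsto u atTop (𝓝 α) := by
  have hb : ∀ j, ‖u j‖ ≤ 1 / 2 := by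
    intro j
    induction j with
    | zero => exact h0
    | succ j ih =>
      rw [hu]
      refine (norm_add_le _ _).trans ?_
      rw [norm_pow]
      nlinarith [norm_nonneg (u j)]
  set θ := 1 / 2 + ‖α‖ with hθ
  have hθ1 : θ < 1 := by linarith
  have hθ0 : 0 ≤ θ := by positivity
  have hc : ∀ j : ℕ, ‖u j - α‖ ≤ θ ^ j * ‖u 0 - α‖ := by
    intro j
    induction j with
    | zero => simp
    | succ j ih =>
      have e1 : u (j + 1) - α = (u j + α) * (u j - α) := by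
        rw [hu]; linear_combination hα
      rw [e1, norm_mul, pow_succ]
      have h1 : ‖u j + α‖ ≤ θ := (norm_add_le _ _).trans (by rw [hθ]; linarith [hb j])
      calc ‖u j + α‖ * ‖u j - α‖ ≤ θ * (θ ^ j * ‖u 0 - α‖) := by gcongr
        _ = _ := by ring
  rw [tendsto_iff_norm_sub_tendsto_zero]
  refine squeeze_zero (fun _ => norm_nonneg _) hc ?_
  have := (tendsto_pow_atTop_nhds_zero_of_lt_one hθ0 hθ1).mul_const ‖u 0 - α‖
  rwa [zero_mul] at this

/-- the trap `|y| ≤ r`, `r ^ 2 + |κ| < r` -/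
theorem quad_trap {κ α : ℂ} {u : ℕ → ℂ} (hu : ∀ j, u (j + 1) = u j ^ 2 + κ) (hα : α ^ 2 + κ = α)
    (hα2 : ‖α‖ < 1 / 2) {k : ℝ} (hk : ‖κ‖ ≤ k) {r : ℝ} (hr : r ^ 2 + k < r) (h0 : ‖u 0‖ ≤ r) :
    Tendsto u atTop (𝓝 α) := by
  have hk0 : 0 ≤ k := (norm_nonneg _).trans hk
  have hr0 : 0 ≤ r := (norm_nonneg _).trans h0
  have hk4 : k ≤ 1 / 4 := by nlinarith [sq_nonneg (r - 1 / 2)]
  -- it is enough to reach `|y| ≤ 1/2`
  suffices h : ∃ j, ‖u j‖ ≤ 1 / 2 by
    obtain ⟨j, hj⟩ := h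
    have := quad_trap_half (u := fun i => u (i + j)) (κ := κ) (α := α) (fun i => by
      show u (i + 1 + j) = u (i + j) ^ 2 + κ
      rw [show i + 1 + j = i + j + 1 by ring, hu]) hα hα2 (hk.trans hk4) (by simpa using hj)
    exact (tendsto_add_atTop_iff_nat j).1 this
  by_contra hcon
  push Not at hcon
  have key : ∀ j : ℕ, ‖u j‖ ≤ r - j * (r - r ^ 2 - k) := by
    intro j
    induction j with
    | zero => simpa using h0
    | succ j ih =>
      have h1 : ‖u (j + 1)‖ ≤ ‖u j‖ ^ 2 + k := by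
        rw [hu]
        refine (norm_add_le _ _).trans ?_
        rw [norm_pow]; linarith
      have h2 := hcon j
      have h3 : 0 ≤ (j : ℝ) * (r - r ^ 2 - k) := by
        apply mul_nonneg (Nat.cast_nonneg j); linarith
      have h4 : ‖u j‖ ≤ r := by linarith
      -- `x^2 - x` is increasing for `x ≥ 1/2`
      have h5 : ‖u j‖ ^ 2 - ‖u j‖ ≤ r ^ 2 - r := by nlinarith
      push_cast
      linarith
  obtain ⟨j, hj⟩ := exists_nat_gt (r / (r - r ^ 2 - k))
  have h1 : 0 < r - r ^ 2 - k := by linarith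
  rw [div_lt_iff₀ h1] at hj
  have h2 := key j
  have h3 := norm_nonneg (u j)
  linarith

theorem cs_aux (x y p q : ℝ) : (x * p + y * q) ^ 2 ≤ (x ^ 2 + y ^ 2) * (p ^ 2 + q ^ 2) := by
  nlinarith [sq_nonneg (x * q - y * p)]

/-- **Apollonius trap** for `Z ↦ Z + (ε ^ 2 - Z ^ 2)`. -/
theorem apol_trap {ε : ℂ} {u : ℕ → ℂ} (hu : ∀ j, u (j + 1) = u j + (ε ^ 2 - u j ^ 2))
    (hre : 0 < ε.re) (hlt : ε.re ^ 2 + ε.im ^ 2 < ε.re)
    (h0 : (ε.re ^ 2 + ε.im ^ 2) * ε.re * ((u 0).re ^ 2 + (u 0).im ^ 2 + (ε.re ^ 2 + ε.im ^ 2)) <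
      (ε.re ^ 2 + (ε.re ^ 2 + ε.im ^ 2) ^ 2) * (ε.re * (u 0).re + ε.im * (u 0).im)) :
    Tendsto u atTop (𝓝 ε) := by
  set x := ε.re with hx
  set y := ε.im with hy
  set n2 := x ^ 2 + y ^ 2 with hn2
  have hn2pos : 0 < n2 := by positivity
  have e1 : ∀ V : ℂ, ‖V - ε‖ ^ 2 = V.re ^ 2 + V.im ^ 2 + n2 - 2 * (x * V.re + y * V.im) := by
    intro V
    rw [Complex.sq_norm, Complex.normSq_apply, Complex.sub_re, Complex.sub_im, hn2]; ring
  have e2 : ∀ V : ℂ, ‖V + ε‖ ^ 2 = V.re ^ 2 + V.im ^ 2 + n2 + 2 * (x * V.re + y * V.im) := by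
    intro V
    rw [Complex.sq_norm, Complex.normSq_apply, Complex.add_re, Complex.add_im, hn2]; ring
  set A0 := (u 0).re ^ 2 + (u 0).im ^ 2 + n2 with hA0
  set B0 := x * (u 0).re + y * (u 0).im with hB0
  have hA0pos : 0 < A0 := by positivity
  have hxn : 0 < x ^ 2 + n2 ^ 2 := by positivity
  have hB0pos : 0 < B0 := by
    have : 0 < n2 * x * A0 := by positivity
    by_contra hcon
    push Not at hcon
    nlinarith
  have hsum : 2 * B0 ≤ A0 := by
    have : 0 ≤ ‖u 0 - ε‖ ^ 2 := by positivity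
    rw [e1 (u 0)] at this
    linarith
  -- `N = (A0 - 2 B0) / (A0 + 2 B0)`
  set N := (A0 - 2 * B0) / (A0 + 2 * B0) with hN
  have hden : 0 < A0 + 2 * B0 := by positivity
  have hN0 : 0 ≤ N := div_nonneg (by linarith) hden.le
  have hN1 : N < 1 := by rw [hN, div_lt_one hden]; linarith
  have hNmul : N * (A0 + 2 * B0) = A0 - 2 * B0 := by rw [hN]; field_simp
  have hstart : ‖u 0 - ε‖ ^ 2 ≤ N * ‖u 0 + ε‖ ^ 2 := by
    rw [e1, e2, ← hA0, ← hB0, hNmul]
  -- margin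
  set ρ := x / n2 with hρ
  have hρ1 : 1 < ρ := by rw [hρ, one_lt_div hn2pos]; exact hlt
  have hρn : ρ * n2 = x := by rw [hρ]; field_simp
  set M := (1 + N) / (1 - N) with hM
  have hM1 : 1 ≤ M := by rw [hM, le_div_iff₀ (by linarith)]; linarith
  -- `2 M < ρ + 1/ρ`
  have hMval : M = A0 / (2 * B0) := by
    rw [hM, div_eq_div_iff (by linarith) (by positivity)]
    have : N * (A0 + 2 * B0) = A0 - 2 * B0 := hNmul
    linear_combination this
  have hδ : 2 * M < ρ + 1 / ρ := by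
    have hρx : ρ + 1 / ρ = (x ^ 2 + n2 ^ 2) / (n2 * x) := by
      rw [hρ]; field_simp
    rw [hρx, hMval, lt_div_iff₀ (by positivity)]
    have : 2 * (A0 / (2 * B0)) * (n2 * x) = n2 * x * A0 / B0 := by field_simp
    rw [this, div_lt_iff₀ hB0pos]
    exact h0
  set g0 := min (ρ + 1 / ρ - 2 * M) (ρ - 1) with hg0
  have hg0pos : 0 < g0 := lt_min (by linarith) (by linarith)
  -- points of the disc are in the good half plane
  have hhalf : ∀ V : ℂ, ‖V - ε‖ ^ 2 ≤ N * ‖V + ε‖ ^ 2 → x * V.re + y * V.im ≤ x - g0 * n2 := by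
    intro V hV
    rw [e1, e2] at hV
    set s := x * V.re + y * V.im with hs
    -- `a = s / n2`
    have hcs : s ^ 2 ≤ n2 * (V.re ^ 2 + V.im ^ 2) := by
      rw [hs, hn2]; exact cs_aux _ _ _ _
    have h1 : (1 - N) * (V.re ^ 2 + V.im ^ 2 + n2) ≤ 2 * (1 + N) * s := by linarith
    have h2 : V.re ^ 2 + V.im ^ 2 + n2 ≤ 2 * M * s := by
      have : 2 * M * s = 2 * (1 + N) * s / (1 - N) := by rw [hM]; ring
      rw [this, le_div_iff₀ (by linarith)]; linarith
    set a := s / n2 with ha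
    have has : s = a * n2 := by rw [ha]; field_simp
    have h3 : a ^ 2 + 1 ≤ 2 * M * a := by
      have h4 : n2 * (V.re ^ 2 + V.im ^ 2 + n2) ≤ n2 * (2 * M * s) :=
        mul_le_mul_of_nonneg_left h2 hn2pos.le
      have h5 : (a * n2) ^ 2 + n2 ^ 2 ≤ n2 * (2 * M * (a * n2)) := by
        rw [← has]; linarith
      have h6 : (a ^ 2 + 1) * n2 ^ 2 ≤ (2 * M * a) * n2 ^ 2 := by linarith
      exact le_of_mul_le_mul_right h6 (by positivity)
    have h7 : a ≤ ρ - g0 := by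
      rcases lt_or_ge a 1 with h | h
      · have := min_le_right (ρ + 1 / ρ - 2 * M) (ρ - 1)
        linarith
      · have ha0 : 0 < a := by linarith
        have h8 : a + 1 / a ≤ 2 * M := by
          have : a + 1 / a = (a ^ 2 + 1) / a := by field_simp
          rw [this, div_le_iff₀ ha0]
          exact h3
        have h9 : ρ + 1 / ρ - 2 * M ≤ (ρ - a) * (1 - 1 / (ρ * a)) := by
          have : (ρ - a) * (1 - 1 / (ρ * a)) = ρ + 1 / ρ - (a + 1 / a) := by
            field_simp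
            ring
          rw [this]; linarith
        have h10 : 0 < 1 - 1 / (ρ * a) := by
          rw [sub_pos, div_lt_one (by positivity)]
          have h14 := mul_le_mul_of_nonneg_left h (by linarith : (0 : ℝ) ≤ ρ)
          linarith
        have h11 : 1 - 1 / (ρ * a) ≤ 1 := by
          have : 0 ≤ 1 / (ρ * a) := by positivity
          linarith
        have h12 : 0 < ρ - a := by
          by_contra hcon
          push Not at hcon
          have : (ρ - a) * (1 - 1 / (ρ * a)) ≤ 0 := mul_nonpos_of_nonpos_of_nonneg hcon h10.le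
          linarith
        have h13 : (ρ - a) * (1 - 1 / (ρ * a)) ≤ ρ - a :=
          mul_le_of_le_one_right h12.le h11
        have := min_le_left (ρ + 1 / ρ - 2 * M) (ρ - 1)
        linarith
    rw [has]
    calc a * n2 ≤ (ρ - g0) * n2 := by gcongr
      _ = x - g0 * n2 := by rw [sub_mul, hρn]
  -- bound of `‖1 + ε - V‖` on the disc
  obtain ⟨B, hB1, hB⟩ : ∃ B, 1 ≤ B ∧ ∀ V : ℂ, ‖V - ε‖ ^ 2 ≤ N * ‖V + ε‖ ^ 2 → ‖1 + ε - V‖ ^ 2 ≤ B := by
    refine ⟨max 1 ((1 + ‖ε‖ + 2 * M * ‖ε‖) ^ 2), le_max_left _ _, fun V hV => ?_⟩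
    refine le_trans ?_ (le_max_right _ _)
    have hVn : ‖V‖ ≤ 2 * M * ‖ε‖ := by
      rw [e1, e2] at hV
      have h1 : (1 - N) * (V.re ^ 2 + V.im ^ 2 + n2) ≤ 2 * (1 + N) * (x * V.re + y * V.im) := by linarith
      have h2 : V.re ^ 2 + V.im ^ 2 + n2 ≤ 2 * M * (x * V.re + y * V.im) := by
        have : 2 * M * (x * V.re + y * V.im) = 2 * (1 + N) * (x * V.re + y * V.im) / (1 - N) := by
          rw [hM]; ring
        rw [this, le_div_iff₀ (by linarith)]; linarith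
      have hnV : ‖V‖ ^ 2 = V.re ^ 2 + V.im ^ 2 := by
        rw [Complex.sq_norm, Complex.normSq_apply]; ring
      have hnε : ‖ε‖ ^ 2 = n2 := by
        rw [Complex.sq_norm, Complex.normSq_apply, hn2]; ring
      have h3 : x * V.re + y * V.im ≤ ‖ε‖ * ‖V‖ := by
        have h4 : (x * V.re + y * V.im) ^ 2 ≤ (‖ε‖ * ‖V‖) ^ 2 := by
          rw [mul_pow, hnV, hnε, hn2]; exact cs_aux _ _ _ _
        exact le_trans (le_abs_self _) (abs_le_of_sq_le_sq h4 (by positivity))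
      have h5 : ‖V‖ ^ 2 ≤ 2 * M * (‖ε‖ * ‖V‖) := by
        have h6 : 2 * M * (x * V.re + y * V.im) ≤ 2 * M * (‖ε‖ * ‖V‖) := by gcongr
        rw [hnV]; linarith
      rcases eq_or_lt_of_le (norm_nonneg V) with h | h
      · rw [← h]; positivity
      · have : ‖V‖ * ‖V‖ ≤ (2 * M * ‖ε‖) * ‖V‖ := by
          calc ‖V‖ * ‖V‖ = ‖V‖ ^ 2 := by ring
            _ ≤ 2 * M * (‖ε‖ * ‖V‖) := h5
            _ = _ := by ring
        exact le_of_mul_le_mul_right this h
    have h1 : ‖1 + ε - V‖ ≤ 1 + ‖ε‖ + 2 * M * ‖ε‖ := by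
      refine (norm_sub_le _ _).trans ?_
      have := norm_add_le (1 : ℂ) ε
      rw [norm_one] at this
      linarith
    gcongr
  set g := 4 * (g0 * n2) with hg
  have hgpos : 0 < g := by positivity
  set θ := max 0 (1 - g / B) with hθ
  have hB0' : 0 < B := by linarith
  have hθ1 : θ < 1 := by
    rw [hθ, max_lt_iff]
    refine ⟨one_pos, ?_⟩
    have : 0 < g / B := by positivity
    linarith
  have hθ0 : 0 ≤ θ := le_max_left _ _
  -- one step
  have hstep : ∀ V : ℂ, ‖V - ε‖ ^ 2 ≤ N * ‖V + ε‖ ^ 2 → ∀ N', 0 ≤ N' → ‖V - ε‖ ^ 2 ≤ N' * ‖V + ε‖ ^ 2 →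
      ‖(V + (ε ^ 2 - V ^ 2)) - ε‖ ^ 2 ≤ (θ * N') * ‖(V + (ε ^ 2 - V ^ 2)) + ε‖ ^ 2 := by
    intro V hV N' hN' hV'
    have f1 : (V + (ε ^ 2 - V ^ 2)) - ε = (V - ε) * (1 - ε - V) := by ring
    have f2 : (V + (ε ^ 2 - V ^ 2)) + ε = (V + ε) * (1 + ε - V) := by ring
    rw [f1, f2, norm_mul, norm_mul, mul_pow, mul_pow]
    have h1 : ‖1 + ε - V‖ ^ 2 = ‖1 - ε - V‖ ^ 2 + 4 * (x - (x * V.re + y * V.im)) := by
      rw [Complex.sq_norm, Complex.sq_norm, Complex.normSq_apply, Complex.normSq_apply]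
      simp only [Complex.add_re, Complex.sub_re, Complex.one_re, Complex.add_im, Complex.sub_im,
        Complex.one_im]
      rw [← hx, ← hy]; ring
    have h2 := hhalf V hV
    have h3 := hB V hV
    have h4 : ‖1 - ε - V‖ ^ 2 ≤ θ * ‖1 + ε - V‖ ^ 2 := by
      have h5 : ‖1 - ε - V‖ ^ 2 ≤ (1 - g / B) * ‖1 + ε - V‖ ^ 2 := by
        have h6 : g / B * ‖1 + ε - V‖ ^ 2 ≤ g := by
          rw [div_mul_eq_mul_div, div_le_iff₀ hB0']
          exact mul_le_mul_of_nonneg_left h3 hgpos.le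
        have h7 : g ≤ 4 * (x - (x * V.re + y * V.im)) := by rw [hg]; linarith
        linarith
      refine h5.trans ?_
      have : 0 ≤ ‖1 + ε - V‖ ^ 2 := by positivity
      exact mul_le_mul_of_nonneg_right (le_max_right _ _) this
    calc ‖V - ε‖ ^ 2 * ‖1 - ε - V‖ ^ 2 ≤ (N' * ‖V + ε‖ ^ 2) * (θ * ‖1 + ε - V‖ ^ 2) := by gcongr
      _ = _ := by ring
  -- iterate
  have hit : ∀ j : ℕ, ‖u j - ε‖ ^ 2 ≤ (θ ^ j * N) * ‖u j + ε‖ ^ 2 := by
    intro j
    induction j with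
    | zero => simpa using hstart
    | succ j ih =>
      have hpow : θ ^ j ≤ 1 := pow_le_one₀ hθ0 hθ1.le
      have h1 : ‖u j - ε‖ ^ 2 ≤ N * ‖u j + ε‖ ^ 2 := by
        refine ih.trans ?_
        apply mul_le_mul_of_nonneg_right _ (by positivity)
        exact mul_le_of_le_one_left hN0 hpow
      have h2 := hstep (u j) h1 (θ ^ j * N) (by positivity) ih
      rw [hu, pow_succ]
      calc _ ≤ _ := h2
        _ = _ := by ring
  -- bound of `‖u j + ε‖`
  have hub : ∀ j : ℕ, ‖u j + ε‖ ^ 2 ≤ (2 * (M + 1) * ‖ε‖) ^ 2 := by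
    intro j
    have hpow : θ ^ j ≤ 1 := pow_le_one₀ hθ0 hθ1.le
    have h1 : ‖u j - ε‖ ^ 2 ≤ N * ‖u j + ε‖ ^ 2 := by
      refine (hit j).trans ?_
      apply mul_le_mul_of_nonneg_right _ (by positivity)
      exact mul_le_of_le_one_left hN0 hpow
    have h2 := h1
    rw [e1, e2] at h2
    set V := u j with hV
    have h3 : (1 - N) * (V.re ^ 2 + V.im ^ 2 + n2) ≤ 2 * (1 + N) * (x * V.re + y * V.im) := by linarith
    have h4 : V.re ^ 2 + V.im ^ 2 + n2 ≤ 2 * M * (x * V.re + y * V.im) := by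
      have : 2 * M * (x * V.re + y * V.im) = 2 * (1 + N) * (x * V.re + y * V.im) / (1 - N) := by
        rw [hM]; ring
      rw [this, le_div_iff₀ (by linarith)]; linarith
    have hnε : ‖ε‖ ^ 2 = n2 := by
      rw [Complex.sq_norm, Complex.normSq_apply, hn2]; ring
    have h5 := hhalf V h1
    have h6 : x * V.re + y * V.im ≤ x := by
      have : 0 ≤ g0 * n2 := by positivity
      linarith
    -- `s ≤ 2 M n2`
    set s := x * V.re + y * V.im with hs
    have hcs : s ^ 2 ≤ n2 * (V.re ^ 2 + V.im ^ 2) := by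
      rw [hs, hn2]; exact cs_aux _ _ _ _
    have h7 : s ≤ 2 * M * n2 := by
      by_contra hcon
      push Not at hcon
      have hs0 : 0 < s := by
        have : 0 ≤ 2 * M * n2 := by positivity
        linarith
      have h8 : s ^ 2 ≤ n2 * (2 * M * s) := by
        refine hcs.trans ?_
        apply mul_le_mul_of_nonneg_left _ hn2pos.le
        linarith
      have h9 := mul_pos (sub_pos.2 hcon) hs0
      have h10 : (s - 2 * M * n2) * s = s ^ 2 - n2 * (2 * M * s) := by ring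
      linarith
    rw [e2 V, ← hs]
    calc V.re ^ 2 + V.im ^ 2 + n2 + 2 * s ≤ 2 * (M + 1) * s := by linarith
      _ ≤ 2 * (M + 1) * (2 * M * n2) := by gcongr
      _ ≤ (2 * (M + 1) * ‖ε‖) ^ 2 := by
        rw [mul_pow, hnε]
        have : 2 * (M + 1) * (2 * M * n2) ≤ 2 * (M + 1) * (2 * (M + 1) * n2) := by gcongr; linarith
        linarith
  rw [tendsto_iff_norm_sub_tendsto_zero]
  have hsq : Tendsto (fun j => ‖u j - ε‖ ^ 2) atTop (𝓝 0) := by
    refine squeeze_zero (fun _ => by positivity) (fun j => (hit j).trans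
      (mul_le_mul_of_nonneg_left (hub j) (by positivity))) ?_
    have := ((tendsto_pow_atTop_nhds_zero_of_lt_one hθ0 hθ1).mul_const N).mul_const
      ((2 * (M + 1) * ‖ε‖) ^ 2)
    simpa using this
  have h3 := hsq.sqrt
  rw [Real.sqrt_zero] at h3
  refine h3.congr (fun j => ?_)
  rw [Real.sqrt_sq (norm_nonneg _)]

end Pool.Agent.W_4481e3_q42
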